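import Pool.Agent.T2H23.EL.Stm
import Pool.Agent.Y719.LC.GO

/-!
Functions on `y² = x³ + a x + b`: the number of zeros, and the uniform finiteness of the points in
the image of a rational map.
-/

set_option autoImplicit false

namespace Pool.Agent.T2H23.EL

open MvPolynomial Pool.Agent.Y719.LC

variable {N : ℕ}

section norm

variable {A : Type} [Field A] {a b : A} {α β : Polynomial A}

/-- the norm of `α + β y` -/
noncomputable def nrm (a b : A) (α β : Polynomial A) : Polynomial A :=
  α ^ 2 - β ^ 2 * (Polynomial.X ^ 3 + Polynomial.C a * Polynomial.X + Polynomial.C b)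

theorem cub_deg (a b : A) : (Polynomial.X ^ 3 + Polynomial.C a * Polynomial.X +
    Polynomial.C b : Polynomial A).natDegree = 3 := by
  compute_degree!

theorem cub_ne (a b : A) : (Polynomial.X ^ 3 + Polynomial.C a * Polynomial.X +
    Polynomial.C b : Polynomial A) ≠ 0 := by
  intro h0
  have h := cub_deg a b
  rw [h0, Polynomial.natDegree_zero] at h
  omega

theorem nrm_ne (h : ¬ (α = 0 ∧ β = 0)) : nrm a b α β ≠ 0 := by
  intro h0
  apply h
  have h1 : α ^ 2 = β ^ 2 * (Polynomial.X ^ 3 + Polynomial.C a * Polynomial.X +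
    Polynomial.C b) := sub_eq_zero.1 h0
  have hβ : β = 0 := by
    by_contra hβ
    have h2 := congrArg Polynomial.natDegree h1
    rw [Polynomial.natDegree_pow, Polynomial.natDegree_mul (pow_ne_zero _ hβ) (cub_ne a b),
      Polynomial.natDegree_pow, cub_deg] at h2
    omega
  refine ⟨?_, hβ⟩
  rw [hβ] at h1
  have h2 : α ^ 2 = 0 := by rw [h1]; ring
  exact pow_eq_zero_iff two_ne_zero |>.1 h2

theorem nrm_deg {n : ℕ} (h1 : 2 * α.natDegree ≤ n) (h2 : β = 0 ∨ 2 * β.natDegree + 3 ≤ n) :
    (nrm a b α β).natDegree ≤ n := by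
  unfold nrm
  refine (Polynomial.natDegree_sub_le _ _).trans (max_le ?_ ?_)
  · rw [Polynomial.natDegree_pow]
    exact h1
  · rcases h2 with rfl | h2
    · simp
    · refine Polynomial.natDegree_mul_le.trans ?_
      rw [Polynomial.natDegree_pow, cub_deg]
      exact h2

theorem nrm_zero {x y : A} (hxy : y ^ 2 = x ^ 3 + a * x + b)
    (h : α.eval x + β.eval x * y = 0) : (nrm a b α β).eval x = 0 := by
  unfold nrm
  simp only [Polynomial.eval_sub, Polynomial.eval_pow, Polynomial.eval_mul, Polynomial.eval_add,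
    Polynomial.eval_X, Polynomial.eval_C]
  rw [← hxy]
  linear_combination (α.eval x - β.eval x * y) * h

end norm

/-! ### degrees -/

section deg

variable {A : Type} [Field A] (a b : A)

/-- the functions on the curve with a pole of order at most `n` -/
def Pol (n : ℕ) (g : Polynomial (Polynomial A)) : Prop :=
  ∃ α β : Polynomial A, ∃ q, g = Polynomial.C α + Polynomial.C β * Polynomial.X + wq a b * q ∧
    2 * α.natDegree ≤ n ∧ (β = 0 ∨ 2 * β.natDegree + 3 ≤ n)

variable {a b}

theorem Pol.add {n : ℕ} {g h : Polynomial (Polynomial A)} (hg : Pol a b n g) (hh : Pol a b n h) :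
    Pol a b n (g + h) := by
  obtain ⟨α, β, q, rfl, h1, h2⟩ := hg
  obtain ⟨α', β', q', rfl, h1', h2'⟩ := hh
  refine ⟨α + α', β + β', q + q', by rw [map_add, map_add]; ring, ?_, ?_⟩
  · have := Polynomial.natDegree_add_le α α'
    omega
  · rcases h2 with rfl | h2
    · rwa [zero_add]
    · rcases h2' with rfl | h2'
      · rw [add_zero]
        exact Or.inr h2
      · right
        have := Polynomial.natDegree_add_le β β'
        omega

theorem Pol.mono {n m : ℕ} (hnm : n ≤ m) {g : Polynomial (Polynomial A)} (hg : Pol a b n g) :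
    Pol a b m g := by
  obtain ⟨α, β, q, rfl, h1, h2⟩ := hg
  exact ⟨α, β, q, rfl, h1.trans hnm, h2.imp_right fun h => h.trans hnm⟩

theorem Pol.mul {n m : ℕ} {g h : Polynomial (Polynomial A)} (hg : Pol a b n g)
    (hh : Pol a b m h) : Pol a b (n + m) (g * h) := by
  obtain ⟨α, β, q, rfl, h1, h2⟩ := hg
  obtain ⟨α', β', q', rfl, h1', h2'⟩ := hh
  set F : Polynomial A := Polynomial.X ^ 3 + Polynomial.C a * Polynomial.X + Polynomial.C b
    with hF
  have hw : (Polynomial.X ^ 2 : Polynomial (Polynomial A)) = wq a b + Polynomial.C F := by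
    unfold wq
    rw [hF]
    ring
  refine ⟨α * α' + β * β' * F, α * β' + β * α', Polynomial.C (β * β') +
    q * (Polynomial.C α' + Polynomial.C β' * Polynomial.X + wq a b * q') +
    q' * (Polynomial.C α + Polynomial.C β * Polynomial.X), ?_, ?_, ?_⟩
  · simp only [map_add, map_mul]
    linear_combination (Polynomial.C β * Polynomial.C β') * hw
  · have e1 := Polynomial.natDegree_add_le (α * α') (β * β' * F)
    have e2 := Polynomial.natDegree_mul_le (p := α) (q := α')
    have e3 : 2 * (β * β' * F).natDegree ≤ n + m := by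
      rcases h2 with rfl | h2
      · simp
      · rcases h2' with rfl | h2'
        · simp
        · have e4 := Polynomial.natDegree_mul_le (p := β * β') (q := F)
          have e5 := Polynomial.natDegree_mul_le (p := β) (q := β')
          rw [cub_deg] at e4
          omega
    omega
  · have e1 := Polynomial.natDegree_add_le (α * β') (β * α')
    have e2 := Polynomial.natDegree_mul_le (p := α) (q := β')
    have e3 := Polynomial.natDegree_mul_le (p := β) (q := α')
    rcases h2 with rfl | h2
    · rcases h2' with rfl | h2'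
      · left
        ring
      · right
        rw [zero_mul, add_zero]
        omega
    · right
      rcases h2' with rfl | h2'
      · rw [mul_zero, zero_add]
        omega
      · omega

theorem Pol.const (c : A) : Pol a b 0 (Polynomial.C (Polynomial.C c)) :=
  ⟨Polynomial.C c, 0, 0, by simp, by simp, Or.inl rfl⟩

theorem Pol.pow {n : ℕ} {g : Polynomial (Polynomial A)} (hg : Pol a b n g) (k : ℕ) :
    Pol a b (k * n) (g ^ k) := by
  induction k with
  | zero =>
    rw [pow_zero, Nat.zero_mul, ← Polynomial.C_1, ← Polynomial.C_1]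
    exact Pol.const 1
  | succ k ih =>
    rw [pow_succ, Nat.succ_mul]
    exact ih.mul hg

theorem Pol.prod {ι : Type} (s : Finset ι) (f : ι → Polynomial (Polynomial A)) (n : ι → ℕ)
    (h : ∀ i ∈ s, Pol a b (n i) (f i)) : Pol a b (∑ i ∈ s, n i) (∏ i ∈ s, f i) := by
  classical
  induction s using Finset.induction_on with
  | empty =>
    rw [Finset.sum_empty, Finset.prod_empty, ← Polynomial.C_1, ← Polynomial.C_1]
    exact Pol.const 1
  | insert i s hi ih =>
    rw [Finset.sum_insert hi, Finset.prod_insert hi]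
    exact (h i (Finset.mem_insert_self _ _)).mul
      (ih fun j hj => h j (Finset.mem_insert_of_mem hj))

theorem Pol.sum {ι : Type} (s : Finset ι) (f : ι → Polynomial (Polynomial A)) (n : ℕ)
    (h : ∀ i ∈ s, Pol a b n (f i)) : Pol a b n (∑ i ∈ s, f i) := by
  classical
  induction s using Finset.induction_on with
  | empty =>
    rw [Finset.sum_empty]
    exact ⟨0, 0, 0, by simp, by simp, Or.inl rfl⟩
  | insert i s hi ih =>
    rw [Finset.sum_insert hi]
    exact (h i (Finset.mem_insert_self _ _)).add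
      (ih fun j hj => h j (Finset.mem_insert_of_mem hj))

theorem pol_tup {D : ℕ} {P Q : Fin (N + 1) → Polynomial A}
    (h : ∀ j, (P j).natDegree ≤ D ∧ (Q j).natDegree ≤ D) (j : Fin (N + 1)) :
    Pol a b (2 * D + 3) (tup P Q j) := by
  refine ⟨P j, Q j, 0, by rw [mul_zero, add_zero]; rfl, ?_, Or.inr ?_⟩
  · have := (h j).1
    omega
  · have := (h j).2
    omega

variable {R : Type} [CommRing R]

theorem pol_eval₂ (φ : R →+* A) {D : ℕ} {P Q : Fin (N + 1) → Polynomial A}
    (h : ∀ j, (P j).natDegree ≤ D ∧ (Q j).natDegree ≤ D) (G : MvPolynomial (Fin (N + 1)) R) :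
    Pol a b (G.totalDegree * (2 * D + 3))
      (eval₂ (Polynomial.C.comp (Polynomial.C.comp φ)) (tup P Q) G) := by
  rw [eval₂_eq']
  refine Pol.sum _ _ _ fun m hm => ?_
  have h1 : ∑ i, m i ≤ G.totalDegree := by
    have := le_totalDegree hm
    rwa [Finsupp.sum_fintype _ _ (fun _ => rfl)] at this
  have h2 := (Pol.const (a := a) (b := b) (φ (coeff m G))).mul
    (Pol.prod Finset.univ (fun i => tup P Q i ^ m i) (fun i => m i * (2 * D + 3))
      fun i _ => (pol_tup h i).pow (m i))
  refine h2.mono ?_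
  rw [zero_add, ← Finset.sum_mul]
  exact Nat.mul_le_mul_right _ h1

/-- the composite as a function on the curve, with a bound for the degree -/
theorem onC_pol (φ : R →+* A) {D : ℕ} {P Q : Fin (N + 1) → Polynomial A}
    (h : ∀ j, (P j).natDegree ≤ D ∧ (Q j).natDegree ≤ D) (G : MvPolynomial (Fin (N + 1)) R) :
    ∃ α β : Polynomial A, onC φ a b P Q G = Polynomial.C α + Polynomial.C β * Polynomial.X ∧
      2 * α.natDegree ≤ G.totalDegree * (2 * D + 3) ∧
      (β = 0 ∨ 2 * β.natDegree + 3 ≤ G.totalDegree * (2 * D + 3)) := by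
  obtain ⟨α, β, q, hq, h1, h2⟩ := pol_eval₂ (a := a) (b := b) φ h G
  refine ⟨α, β, ?_, h1, h2⟩
  unfold onC
  rw [hq]
  have hdeg : (Polynomial.C α + Polynomial.C β * Polynomial.X : Polynomial (Polynomial A)).degree <
      (wq a b).degree := by
    have e1 : (wq a b).degree = 2 := by
      rw [Polynomial.degree_eq_natDegree (wq_monic a b).ne_zero, wq_natDegree]
      rfl
    rw [e1, add_comm]
    exact lt_of_le_of_lt Polynomial.degree_linear_le (by norm_num)
  rw [Polynomial.add_modByMonic, (Polynomial.modByMonic_eq_self_iff (wq_monic a b)).2 hdeg,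
    (Polynomial.modByMonic_eq_zero_iff_dvd (wq_monic a b)).2 (dvd_mul_right _ _), add_zero]

theorem onC_eq_zero {φ : R →+* A} {P Q : Fin (N + 1) → Polynomial A}
    {G : MvPolynomial (Fin (N + 1)) R} : onC φ a b P Q G = 0 ↔
      wq a b ∣ eval₂ (Polynomial.C.comp (Polynomial.C.comp φ)) (tup P Q) G :=
  Polynomial.modByMonic_eq_zero_iff_dvd (wq_monic a b)

end deg

/-! ### finitely many forms -/

theorem exists_forms {K : Type} [Field K] (I : Ideal (MvPolynomial (Fin (N + 1)) K)) :
    ∃ T : Finset (MvPolynomial (Fin (N + 1)) K), (∀ G ∈ T, G ∈ I ∧ ∃ d, G.IsHomogeneous d) ∧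
      ∀ (S : Type) [CommRing S] (J : Ideal S) (g : MvPolynomial (Fin (N + 1)) K →+* S),
        (∀ G ∈ T, g G ∈ J) → ∀ G ∈ I, (∃ d, G.IsHomogeneous d) → g G ∈ J := by
  classical
  let U : Set (MvPolynomial (Fin (N + 1)) K) := {G | G ∈ I ∧ ∃ d, G.IsHomogeneous d}
  obtain ⟨T, hTU, hT⟩ := (Submodule.fg_span_iff_fg_span_finset_subset U).1
    (IsNoetherian.noetherian (Submodule.span (MvPolynomial (Fin (N + 1)) K) U))
  refine ⟨T, fun G hG => hTU hG, fun S _ J g hg G hG hGh => ?_⟩
  have h1 : G ∈ Submodule.span (MvPolynomial (Fin (N + 1)) K) U := Submodule.subset_span ⟨hG, hGh⟩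
  rw [hT] at h1
  have h2 : Ideal.span (T : Set (MvPolynomial (Fin (N + 1)) K)) ≤ J.comap g :=
    Ideal.span_le.2 fun G hG => hg G hG
  exact h2 h1

/-! ### the number of points -/

section count

variable {K A : Type} [Field K] [Field A] {φ : K →+* A} {a b : A}
  {I I' : Ideal (MvPolynomial (Fin (N + 1)) K)} {P Q : Fin (N + 1) → Polynomial A}

theorem zero_smul {v : Fin (N + 1) → A} (h : Zero φ I v) (c : A) : Zero φ I (fun j => c * v j) := by
  rintro G hG ⟨d, hd⟩
  rw [Pool.Agent.TH143.HE.eval₂_smul_homog _ c v hd, h G hG ⟨d, hd⟩, mul_zero]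

theorem mem_pts {p : Projectivization A (Fin (N + 1) → A)} {v : Fin (N + 1) → A} (h : Rep p v) :
    p ∈ Pts φ I ↔ Zero φ I v := by
  obtain ⟨hv, rfl⟩ := h
  obtain ⟨c, hc⟩ := Projectivization.exists_smul_eq_mk_rep A v hv
  have h1 : (Projectivization.mk A v hv).rep = fun j => (c : A) * v j := by
    rw [← hc]
    rfl
  constructor
  · intro h
    have h2 : Zero φ I (Projectivization.mk A v hv).rep := h
    rw [h1] at h2
    have h3 := zero_smul h2 (c : A)⁻¹
    have h4 : (fun j => (c : A)⁻¹ * ((c : A) * v j)) = v := by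
      funext j
      rw [inv_mul_cancel_left₀ c.ne_zero]
    rwa [h4] at h3
  · intro h
    change Zero φ I (Projectivization.mk A v hv).rep
    rw [h1]
    exact zero_smul h _

theorem val_eval₂ {G : MvPolynomial (Fin (N + 1)) K} {α β : Polynomial A}
    (h : onC φ a b P Q G = Polynomial.C α + Polynomial.C β * Polynomial.X) {x y : A}
    (hxy : y ^ 2 = x ^ 3 + a * x + b) : eval₂ φ (val P Q x y) G = α.eval x + β.eval x * y := by
  have h1 := onC_eval φ P Q G (RingHom.id A) (x := x) (y := y) hxy
  rw [h, RingHom.id_comp] at h1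
  simp only [Polynomial.eval₂_add, Polynomial.eval₂_mul, Polynomial.eval₂_C,
    Polynomial.eval₂_X, Polynomial.coe_eval₂RingHom, Polynomial.eval₂_id] at h1
  exact h1.symm

/-- the points of the curve where a nonzero function vanishes -/
theorem card_zeros {α β : Polynomial A} (h0 : ¬ (α = 0 ∧ β = 0)) {n : ℕ}
    (h1 : 2 * α.natDegree ≤ n) (h2 : β = 0 ∨ 2 * β.natDegree + 3 ≤ n) :
    ∃ S : Finset (A × A), S.card ≤ 2 * n ∧ ∀ x y : A, y ^ 2 = x ^ 3 + a * x + b →
      α.eval x + β.eval x * y = 0 → (x, y) ∈ S := by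
  classical
  let S : Finset (A × A) := (nrm a b α β).roots.toFinset.biUnion fun x =>
    ((Polynomial.X ^ 2 - Polynomial.C (x ^ 3 + a * x + b) : Polynomial A).roots.toFinset).image
      fun y => (x, y)
  refine ⟨S, ?_, fun x y hxy hz => ?_⟩
  · refine (Finset.card_biUnion_le_card_mul _ _ 2 fun x _ => ?_).trans ?_
    · refine Finset.card_image_le.trans ((Multiset.toFinset_card_le _).trans
        ((Polynomial.card_roots' _).trans ?_))
      rw [Polynomial.natDegree_X_pow_sub_C]
    · rw [mul_comm]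
      exact Nat.mul_le_mul_left 2 ((Multiset.toFinset_card_le _).trans
        ((Polynomial.card_roots' _).trans (nrm_deg h1 h2)))
  · refine Finset.mem_biUnion.2 ⟨x, ?_, Finset.mem_image.2 ⟨y, ?_, rfl⟩⟩
    · rw [Multiset.mem_toFinset, Polynomial.mem_roots (nrm_ne h0)]
      exact nrm_zero hxy hz
    · rw [Multiset.mem_toFinset, Polynomial.mem_roots (Polynomial.X_pow_sub_C_ne_zero
        (by norm_num) _)]
      change Polynomial.eval y _ = 0
      rw [Polynomial.eval_sub, Polynomial.eval_pow, Polynomial.eval_X, Polynomial.eval_C, hxy,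
        sub_self]

/-- the values at the points of a finite set -/
theorem encard_values (S : Finset (A × A)) (P Q : Fin (N + 1) → Polynomial A) :
    {c : Projectivization A (Fin (N + 1) → A) | ∃ p ∈ S, Rep c (val P Q p.1 p.2)}.encard ≤
      S.card := by
  classical
  rcases S.eq_empty_or_nonempty with rfl | hS
  · have : {c : Projectivization A (Fin (N + 1) → A) |
        ∃ p ∈ (∅ : Finset (A × A)), Rep c (val P Q p.1 p.2)} = ∅ := by
      ext c
      simp
    rw [this]
    simp
  · let c0 : Projectivization A (Fin (N + 1) → A) :=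
      Projectivization.mk A (fun _ => 1) (fun h => one_ne_zero (congrFun h 0))
    let F : A × A → Projectivization A (Fin (N + 1) → A) := fun p =>
      if h : val P Q p.1 p.2 ≠ 0 then Projectivization.mk A _ h else c0
    have h1 : {c : Projectivization A (Fin (N + 1) → A) | ∃ p ∈ S, Rep c (val P Q p.1 p.2)} ⊆
        F '' (S : Set (A × A)) := by
      rintro c ⟨p, hp, h, rfl⟩
      refine ⟨p, hp, ?_⟩
      simp only [F]
      rw [dif_pos h]
    refine (Set.encard_le_encard h1).trans ((Set.encard_image_le _ _).trans ?_)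
    rw [Set.encard_coe_eq_coe_finsetCard]

/-- **Uniform finiteness.** -/
theorem encard_le {T : Finset (MvPolynomial (Fin (N + 1)) K)}
    (hT : ∀ G ∈ T, G ∈ I ∧ ∃ d, G.IsHomogeneous d)
    (hgen : ∀ (S : Type) [CommRing S] (J : Ideal S) (g : MvPolynomial (Fin (N + 1)) K →+* S),
        (∀ G ∈ T, g G ∈ J) → ∀ G ∈ I, (∃ d, G.IsHomogeneous d) → g G ∈ J)
    (hE : ¬ ECur φ I I' a b P Q) (hns : 4 * a ^ 3 + 27 * b ^ 2 ≠ 0) {D : ℕ}
    (h : ∀ j, (P j).natDegree ≤ D ∧ (Q j).natDegree ≤ D) :
    (EllPts a b P Q ∩ (Pts φ I \ Pts φ I')).encard ≤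
      ((6 * T.sup (fun G => G.totalDegree) + 1) * (D + 1) : ℕ) := by
  classical
  set C := 6 * T.sup (fun G => G.totalDegree) + 1 with hC
  by_cases hall : ∀ G ∈ T, onC φ a b P Q G = 0
  · -- the image lies in `X`
    have hI : ∀ G ∈ I, (∃ d, G.IsHomogeneous d) → onC φ a b P Q G = 0 := by
      intro G hG hGh
      rw [onC_eq_zero, ← Ideal.mem_span_singleton]
      refine hgen (Polynomial (Polynomial A)) (Ideal.span {wq a b})
        (eval₂Hom (Polynomial.C.comp (Polynomial.C.comp φ)) (tup P Q)) (fun G hG => ?_) G hG hGh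
      rw [Ideal.mem_span_singleton, coe_eval₂Hom]
      exact onC_eq_zero.1 (hall G hG)
    by_cases hI' : ∀ G ∈ I', (∃ d, G.IsHomogeneous d) → onC φ a b P Q G = 0
    · have h1 : EllPts a b P Q ∩ (Pts φ I \ Pts φ I') = ∅ := by
        rw [Set.eq_empty_iff_forall_notMem]
        rintro c ⟨⟨x, y, hxy, hr⟩, -, hc⟩
        apply hc
        rw [mem_pts hr]
        intro G hG hGh
        rw [val_eval₂ (α := 0) (β := 0) (by rw [hI' G hG hGh]; simp) hxy]
        simp
      rw [h1]
      simp
    · push Not at hI'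
      obtain ⟨G, hG, hGh, hne⟩ := hI'
      have hnc : ¬ NCt P Q := fun hnc => hE ⟨hns, hI, ⟨G, hG, hGh, hne⟩, hnc⟩
      obtain ⟨p, q, c, hc⟩ := const_of_not_NCt hnc
      have h1 : (EllPts a b P Q ∩ (Pts φ I \ Pts φ I')).encard ≤ 1 := by
        rw [Set.encard_le_one_iff]
        rintro u v ⟨⟨x, y, -, hu, rfl⟩, -⟩ ⟨⟨x', y', -, hv, rfl⟩, -⟩
        rw [Projectivization.mk_eq_mk_iff']
        have e : ∀ x y j, val P Q x y j = (p.eval x + q.eval x * y) * c j := by
          intro x y j
          simp only [val, (hc j).1, (hc j).2, Polynomial.eval_mul, Polynomial.eval_C]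
          ring
        have hv' : p.eval x' + q.eval x' * y' ≠ 0 := by
          intro h0
          apply hv
          funext j
          rw [e, h0, zero_mul]
          rfl
        refine ⟨(p.eval x + q.eval x * y) / (p.eval x' + q.eval x' * y'), ?_⟩
        funext j
        rw [Pi.smul_apply, smul_eq_mul, e, e]
        field_simp
      refine h1.trans ?_
      have : 1 ≤ C * (D + 1) := Nat.mul_pos (by omega) (by omega)
      exact_mod_cast this
  · push Not at hall
    obtain ⟨G, hG, hne⟩ := hall
    obtain ⟨α, β, h1, h2, h3⟩ := onC_pol (a := a) (b := b) φ h G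
    have h0 : ¬ (α = 0 ∧ β = 0) := by
      rintro ⟨rfl, rfl⟩
      apply hne
      rw [h1]
      simp
    obtain ⟨S, hS1, hS2⟩ := card_zeros (a := a) (b := b) h0 h2 h3
    have h4 : EllPts a b P Q ∩ (Pts φ I \ Pts φ I') ⊆
        {c | ∃ p ∈ S, Rep c (val P Q p.1 p.2)} := by
      rintro c ⟨⟨x, y, hxy, hr⟩, hc, -⟩
      refine ⟨(x, y), hS2 x y hxy ?_, hr⟩
      rw [← val_eval₂ h1 hxy]
      exact (mem_pts hr).1 hc G (hT G hG).1 (hT G hG).2
    refine (Set.encard_le_encard h4).trans ((encard_values S P Q).trans ?_)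
    have h5 : G.totalDegree ≤ T.sup (fun G => G.totalDegree) :=
      Finset.le_sup (f := fun G : MvPolynomial (Fin (N + 1)) K => G.totalDegree) hG
    have h6 : S.card ≤ C * (D + 1) := by
      refine hS1.trans ?_
      have e1 : 2 * (G.totalDegree * (2 * D + 3)) ≤ 6 * G.totalDegree * (D + 1) := by
        nlinarith [Nat.zero_le (G.totalDegree * D)]
      refine e1.trans (Nat.mul_le_mul_right _ ?_)
      omega
    exact_mod_cast h6

end count

end Pool.Agent.T2H23.EL
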