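import Pool.Agent.T2H23.EL.Stm

/-!
The duplication on `y² = x³ + a x + b`, and infinite orbits over number fields.
-/

set_option autoImplicit false

namespace Pool.Agent.T2H23.EL

open WeierstrassCurve.Affine

/-- the first coordinate of the double -/
def dX {A : Type} [Field A] (a b x y : A) : A :=
  (x ^ 4 - 2 * a * x ^ 2 - 8 * b * x + a ^ 2) / (4 * y ^ 2)

/-- the second coordinate of the double -/
def dY {A : Type} [Field A] (a b x y : A) : A :=
  (x ^ 6 + 5 * a * x ^ 4 + 20 * b * x ^ 3 - 5 * a ^ 2 * x ^ 2 - 4 * a * b * x - 8 * b ^ 2 -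
    a ^ 3) / (8 * y ^ 3)

section

variable {L : Type} [Field L] [CharZero L] {a b : L}

theorem nonsing (hab : 4 * a ^ 3 + 27 * b ^ 2 ≠ 0) {x y : L} (h : y ^ 2 = x ^ 3 + a * x + b) :
    (cubic a b).Nonsingular x y := by
  rw [nonsingular_iff, equation_iff]
  simp only [cubic]
  refine ⟨by linear_combination h, ?_⟩
  by_contra hcon
  push Not at hcon
  obtain ⟨h1, h2⟩ := hcon
  have hy : y = 0 := by
    have h3 : 2 * y = 0 := by linear_combination h2
    simpa using h3
  have hx : 3 * x ^ 2 + a = 0 := by linear_combination -h1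
  apply hab
  have h4 : x ^ 3 + a * x + b = 0 := by rw [← h, hy]; ring
  have ha : a = -3 * x ^ 2 := by linear_combination hx
  have hb : b = 2 * x ^ 3 := by
    rw [ha] at h4
    linear_combination h4
  rw [ha, hb]
  ring

variable [DecidableEq L]

theorem dbl {x y : L} (h : (cubic a b).Nonsingular x y) (hy : y ≠ 0) :
    ∃ h', Point.some x y h + Point.some x y h = Point.some (dX a b x y) (dY a b x y) h' := by
  have hn : y ≠ (cubic a b).negY x y := by
    simp only [negY, cubic]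
    intro h0
    apply hy
    have h3 : 2 * y = 0 := by linear_combination h0
    simpa using h3
  have heq : y ^ 2 = x ^ 3 + a * x + b := by
    have h1 := (nonsingular_iff _ _).1 h
    have h2 := (equation_iff _ _).1 h1.1
    simp only [cubic] at h2
    linear_combination h2
  have hs : (cubic a b).slope x x y y = (3 * x ^ 2 + a) / (2 * y) := by
    rw [slope_of_Y_ne rfl hn]
    simp only [negY, cubic]
    congr 1 <;> ring
  have hX : (cubic a b).addX x x ((cubic a b).slope x x y y) = dX a b x y := by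
    rw [hs, addX, dX]
    simp only [cubic]
    field_simp
    rw [heq]
    ring
  have hY : (cubic a b).addY x x y ((cubic a b).slope x x y y) = dY a b x y := by
    rw [addY, negAddY, hX, hs, dX, dY]
    simp only [cubic, negY]
    field_simp
    have e4 : y ^ 4 = (x ^ 3 + a * x + b) ^ 2 := by rw [← heq]; ring
    ring_nf
    rw [e4, heq]
    ring
  rw [Point.add_self_of_Y_ne hn]
  refine ⟨?_, ?_⟩
  · rw [← hX, ← hY]
    exact nonsingular_add h h fun hxy => hn hxy.right
  · simp only [hX, hY]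

/-- the orbit -/
theorem orbit {x y : ℕ → L} (hab : 4 * a ^ 3 + 27 * b ^ 2 ≠ 0) (hy0 : ∀ m, y m ≠ 0)
    (hc : ∀ m, y m ^ 2 = x m ^ 3 + a * x m + b) (hx : ∀ m, x (m + 1) = dX a b (x m) (y m))
    (hy : ∀ m, y (m + 1) = dY a b (x m) (y m)) :
    ∃ p : (cubic a b).Point, ∀ m, ∃ h, 2 ^ m • p = Point.some (x m) (y m) h := by
  refine ⟨Point.some (x 0) (y 0) (nonsing hab (hc 0)), fun m => ?_⟩
  induction m with
  | zero => exact ⟨nonsing hab (hc 0), by rw [pow_zero, one_smul]⟩
  | succ m ih =>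
    obtain ⟨h, ih⟩ := ih
    obtain ⟨h', hd⟩ := dbl h (hy0 m)
    have e : 2 ^ (m + 1) • Point.some (x 0) (y 0) (nonsing hab (hc 0)) =
        Point.some (dX a b (x m) (y m)) (dY a b (x m) (y m)) h' := by
      rw [pow_succ, mul_comm, mul_smul, ih, two_smul, hd]
    refine ⟨nonsing hab (hc (m + 1)), ?_⟩
    rw [e]
    simp only [hx m, hy m]

end

/-! ### Large points -/

section

variable {L Γ : Type} [Field L] [LinearOrderedCommGroupWithZero Γ] (v : Valuation L Γ)

theorem v_add_eq {x y : L} (h : v y < v x) : v (x + y) = v x :=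
  v.map_add_eq_of_lt_left h

variable {v}

theorem big_step (h2 : v 2 < 1) {a b x y : L} (h2' : (2 : L) ≠ 0) (h1 : 1 < v x)
    (ha : v a < v x) (hb : v b < v x) (hc : y ^ 2 = x ^ 3 + a * x + b) :
    y ≠ 0 ∧ v x < v (dX a b x y) := by
  have hx0 : 0 < v x := lt_trans zero_lt_one h1
  have hnat : ∀ n : ℕ, v (n : L) ≤ 1 := by
    intro n
    induction n with
    | zero => simp
    | succ n ih =>
      push_cast
      exact (v.map_add _ _).trans (max_le ih (by rw [map_one]))
  have h8 : v 8 ≤ 1 := by exact_mod_cast hnat 8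
  have h2l : v 2 ≤ 1 := h2.le
  -- the powers
  have p12 : v x < v x ^ 2 := by
    have := mul_lt_mul_of_pos_right h1 hx0
    rwa [one_mul, ← sq] at this
  have p23 : v x ^ 2 < v x ^ 3 := by
    have := mul_lt_mul_of_pos_right h1 (pow_pos hx0 2)
    rwa [one_mul, ← pow_succ'] at this
  have p34 : v x ^ 3 < v x ^ 4 := by
    have := mul_lt_mul_of_pos_right h1 (pow_pos hx0 3)
    rwa [one_mul, ← pow_succ'] at this
  -- the cubic
  have c1 : v (a * x) < v x ^ 3 := by
    rw [map_mul]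
    refine lt_trans ?_ p23
    rw [sq]
    exact mul_lt_mul_of_pos_right ha hx0
  have c2 : v b < v x ^ 3 := hb.trans (p12.trans p23)
  have c3 : v (x ^ 3 + a * x + b) = v x ^ 3 := by
    rw [add_assoc, v_add_eq v, map_pow]
    rw [map_pow]
    exact lt_of_le_of_lt (v.map_add _ _) (max_lt c1 c2)
  have hy : y ≠ 0 := by
    rintro rfl
    rw [← hc] at c3
    simp only [ne_eq, OfNat.ofNat_ne_zero, not_false_eq_true, zero_pow, map_zero] at c3
    exact (pow_pos hx0 3).ne c3
  refine ⟨hy, ?_⟩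
  have n1 : v (2 * a * x ^ 2) < v x ^ 4 := by
    rw [map_mul, map_mul, map_pow]
    have e1 : v 2 * v a * v x ^ 2 ≤ v a * v x ^ 2 := by
      rw [mul_assoc]
      exact mul_le_of_le_one_left' h2l
    refine lt_of_le_of_lt e1 (lt_trans ?_ p34)
    rw [pow_succ' (v x) 2]
    exact mul_lt_mul_of_pos_right ha (pow_pos hx0 2)
  have n2 : v (8 * b * x) < v x ^ 4 := by
    rw [map_mul, map_mul]
    have e1 : v 8 * v b * v x ≤ v b * v x := by
      rw [mul_assoc]
      exact mul_le_of_le_one_left' h8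
    refine lt_of_le_of_lt e1 (lt_trans ?_ (p23.trans p34))
    rw [sq]
    exact mul_lt_mul_of_pos_right hb hx0
  have n3 : v (a ^ 2) < v x ^ 4 := by
    rw [map_pow]
    refine lt_trans ?_ (p23.trans p34)
    exact pow_lt_pow_left₀ ha zero_le two_ne_zero
  have num : v (x ^ 4 - 2 * a * x ^ 2 - 8 * b * x + a ^ 2) = v x ^ 4 := by
    have e : x ^ 4 - 2 * a * x ^ 2 - 8 * b * x + a ^ 2 =
        x ^ 4 + (-(2 * a * x ^ 2) + (-(8 * b * x) + a ^ 2)) := by ring
    rw [e, v_add_eq v, map_pow]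
    rw [map_pow]
    refine lt_of_le_of_lt (v.map_add _ _) (max_lt ?_ ?_)
    · rwa [Valuation.map_neg]
    · refine lt_of_le_of_lt (v.map_add _ _) (max_lt ?_ n3)
      rwa [Valuation.map_neg]
  have den : v (4 * y ^ 2) = v 2 ^ 2 * v x ^ 3 := by
    rw [map_mul, hc, c3]
    congr 1
    rw [← map_pow]
    congr 1
    norm_num
  rw [dX, map_div₀, num, den]
  have h20 : 0 < v 2 := (v.pos_iff).2 h2'
  have hd0 : 0 < v 2 ^ 2 * v x ^ 3 := mul_pos (pow_pos h20 2) (pow_pos hx0 3)
  rw [lt_div_iff₀ hd0]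
  have e2 : v 2 ^ 2 < 1 := by
    rw [sq]
    exact lt_of_le_of_lt (mul_le_of_le_one_left' h2l) h2
  have e3 : v x * (v 2 ^ 2 * v x ^ 3) = v 2 ^ 2 * v x ^ 4 := by
    rw [pow_succ' (v x) 3]
    ac_rfl
  rw [e3]
  have := mul_lt_mul_of_pos_right e2 (pow_pos hx0 4)
  rwa [one_mul] at this

/-- the point of the curve -/
theorem dcurve [CharZero L] {a b x y : L} (hy : y ≠ 0) (h : y ^ 2 = x ^ 3 + a * x + b) :
    dY a b x y ^ 2 = dX a b x y ^ 3 + a * dX a b x y + b := by
  unfold dX dY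
  field_simp
  have e2 : y ^ 2 = x ^ 3 + a * x + b := h
  have e4 : y ^ 4 = (x ^ 3 + a * x + b) ^ 2 := by rw [← h]; ring
  have e6 : y ^ 6 = (x ^ 3 + a * x + b) ^ 3 := by rw [← h]; ring
  ring_nf
  simp only [e6, e4]
  ring

/-- **The infinite orbit.** -/
theorem exists_orbit_v [CharZero L] (h2 : v 2 < 1) {a b x0 y0 : L} (h1 : 1 < v x0)
    (ha : v a < v x0) (hb : v b < v x0) (hc : y0 ^ 2 = x0 ^ 3 + a * x0 + b) :
    ∃ x y : ℕ → L, Function.Injective x ∧ (∀ m, y m ≠ 0) ∧
      (∀ m, y m ^ 2 = x m ^ 3 + a * x m + b) ∧ (∀ m, x (m + 1) = dX a b (x m) (y m)) ∧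
      ∀ m, y (m + 1) = dY a b (x m) (y m) := by
  let s : ℕ → L × L := fun m => Nat.rec (x0, y0) (fun _ p => (dX a b p.1 p.2, dY a b p.1 p.2)) m
  have hs : ∀ m, 1 < v (s m).1 ∧ v a < v (s m).1 ∧ v b < v (s m).1 ∧
      (s m).2 ^ 2 = (s m).1 ^ 3 + a * (s m).1 + b := by
    intro m
    induction m with
    | zero => exact ⟨h1, ha, hb, hc⟩
    | succ m ih =>
      obtain ⟨i1, i2, i3, i4⟩ := ih
      obtain ⟨j1, j2⟩ := big_step h2 two_ne_zero i1 i2 i3 i4
      exact ⟨i1.trans j2, i2.trans j2, i3.trans j2, dcurve j1 i4⟩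
  have hst : ∀ m, (s m).2 ≠ 0 ∧ v (s m).1 < v (s (m + 1)).1 := by
    intro m
    obtain ⟨i1, i2, i3, i4⟩ := hs m
    exact big_step h2 two_ne_zero i1 i2 i3 i4
  refine ⟨fun m => (s m).1, fun m => (s m).2, ?_, fun m => (hst m).1, fun m => (hs m).2.2.2,
    fun m => rfl, fun m => rfl⟩
  have hmono : StrictMono fun m => v (s m).1 := strictMono_nat_of_lt_succ fun m => (hst m).2
  intro m n hmn
  exact hmono.injective (congrArg v hmn)

end

end Pool.Agent.T2H23.EL
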