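import Pool.Agent.T2H23.EL.Dbl
import Pool.Agent.T2H23.EL.Crv
import Pool.Agent.TH143.GE.Model

/-!
The field of the sequences which are rational functions of the points of an orbit of the
duplication.
-/

set_option autoImplicit false

namespace Pool.Agent.T2H23.EL

open MvPolynomial Filter Pool.Agent.TH143.DE Pool.Agent.TH143.HE Pool.Agent.TH143.TW
open Pool.Agent.TH143.GE Module

variable {a b : ℂ} {x y : ℕ → ℂ}

theorem Gv_ev (P : MvPolynomial (Fin 2) ℂ) :
    Gv x y P = gg fun m => aeval ![x m, y m] P := Gv_eq P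

theorem Gv_norm (hc : ∀ m, y m ^ 2 = x m ^ 3 + a * x m + b) (P : MvPolynomial (Fin 2) ℂ) :
    ∃ α β : Polynomial ℂ, Gv x y P = gg fun m => α.eval (x m) + β.eval (x m) * y m := by
  obtain ⟨A, B, h⟩ := normal a b P
  refine ⟨A, B, ?_⟩
  rw [Gv_ev]
  congr 1
  funext m
  have h1 := h ℂ (x m) (y m) (hc m)
  rw [Polynomial.coe_aeval_eq_eval] at h1
  exact h1

/-- a nonzero function is zero at finitely many points of the orbit only -/
theorem ev_fun {α β : Polynomial ℂ} (hinj : Function.Injective x)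
    (hc : ∀ m, y m ^ 2 = x m ^ 3 + a * x m + b) (h0 : ¬ (α = 0 ∧ β = 0)) :
    ∀ᶠ m in atTop, α.eval (x m) + β.eval (x m) * y m ≠ 0 := by
  filter_upwards [ev_ne hinj (nrm_ne (a := a) (b := b) h0)] with m hm h
  exact hm (nrm_zero (hc m) h)

theorem Gv_dich (hinj : Function.Injective x) (hc : ∀ m, y m ^ 2 = x m ^ 3 + a * x m + b)
    (P : MvPolynomial (Fin 2) ℂ) : Gv x y P = 0 ∨ IsUnit (Gv x y P) := by
  obtain ⟨α, β, h⟩ := Gv_norm hc P
  by_cases h0 : α = 0 ∧ β = 0
  · left
    rw [h, gg_zero]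
    refine Eventually.of_forall fun m => ?_
    rw [h0.1, h0.2]
    simp
  · right
    rw [h]
    exact ne_unit (ev_fun hinj hc h0)

/-- the germs which are rational functions of the points of the orbit -/
noncomputable def SG (x y : ℕ → ℂ) : Subalgebra ℂ GG where
  carrier := {g | ∃ r s : MvPolynomial (Fin 2) ℂ, IsUnit (Gv x y s) ∧ g * Gv x y s = Gv x y r}
  mul_mem' := by
    rintro g g' ⟨r, s, hs, h⟩ ⟨r', s', hs', h'⟩
    refine ⟨r * r', s * s', by rw [map_mul]; exact hs.mul hs', ?_⟩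
    rw [map_mul, map_mul, ← h, ← h']
    ring
  add_mem' := by
    rintro g g' ⟨r, s, hs, h⟩ ⟨r', s', hs', h'⟩
    refine ⟨r * s' + r' * s, s * s', by rw [map_mul]; exact hs.mul hs', ?_⟩
    rw [map_mul, map_add, map_mul, map_mul, ← h, ← h']
    ring
  algebraMap_mem' := by
    intro c
    refine ⟨algebraMap ℂ _ c, 1, by rw [map_one]; exact isUnit_one, ?_⟩
    rw [map_one, mul_one, AlgHom.commutes]

theorem mem_SG {g : GG} : g ∈ SG x y ↔
    ∃ r s : MvPolynomial (Fin 2) ℂ, IsUnit (Gv x y s) ∧ g * Gv x y s = Gv x y r := Iff.rfl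

theorem Gv_mem (P : MvPolynomial (Fin 2) ℂ) : Gv x y P ∈ SG x y :=
  ⟨P, 1, by rw [map_one]; exact isUnit_one, by rw [map_one, mul_one]⟩

theorem ggx_mem : gg x ∈ SG x y := by
  have h := Gv_mem (x := x) (y := y) (X 0)
  rwa [Gv, aeval_X] at h

theorem ggy_mem : gg y ∈ SG x y := by
  have h := Gv_mem (x := x) (y := y) (X 1)
  rwa [Gv, aeval_X] at h

theorem SG_inv (hinj : Function.Injective x) (hc : ∀ m, y m ^ 2 = x m ^ 3 + a * x m + b)
    {g : GG} (hg : g ∈ SG x y) (h0 : g ≠ 0) : ∃ h ∈ SG x y, g * h = 1 := by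
  obtain ⟨r, s, hs, h⟩ := hg
  rcases Gv_dich hinj hc r with h1 | h1
  · exfalso
    apply h0
    rw [h1] at h
    exact (hs.mul_left_eq_zero).1 h
  · obtain ⟨t, ht⟩ := h1.exists_right_inv
    refine ⟨Gv x y s * t, ⟨s, r, h1, ?_⟩, ?_⟩
    · rw [mul_assoc, mul_comm t, ht, mul_one]
    · rw [← mul_assoc, h, ht]

theorem sh_ev (f : ℕ → ℂ) : shG (gg f) = gg fun m => f (m + 1) := shG_gg f

theorem SG_fld (hinj : Function.Injective x) (hy0 : ∀ m, y m ≠ 0)
    (hc : ∀ m, y m ^ 2 = x m ^ 3 + a * x m + b)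
    (hx : ∀ m, x (m + 1) = dX a b (x m) (y m)) (hy : ∀ m, y (m + 1) = dY a b (x m) (y m)) :
    IsFld (SG x y) := by
  -- the shifted sequences are rational functions
  have hunit : ∀ {f : ℕ → ℂ}, (∀ m, f m ≠ 0) → IsUnit (gg f) := fun h =>
    ne_unit (Eventually.of_forall h)
  have hX : gg (fun m => x (m + 1)) ∈ SG x y := by
    refine ⟨X 0 ^ 4 - 2 * C a * X 0 ^ 2 - 8 * C b * X 0 + C a ^ 2, 4 * X 1 ^ 2, ?_, ?_⟩
    · rw [Gv_ev]
      apply hunit
      intro m
      have h1 : aeval ![x m, y m] (4 * X 1 ^ 2 : MvPolynomial (Fin 2) ℂ) = 4 * y m ^ 2 := by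
        simp [map_ofNat]
      rw [h1]
      exact mul_ne_zero (by norm_num) (pow_ne_zero _ (hy0 m))
    · rw [Gv_ev, Gv_ev, ← map_mul]
      congr 1
      funext m
      rw [Pi.mul_apply]
      have h1 : aeval ![x m, y m] (4 * X 1 ^ 2 : MvPolynomial (Fin 2) ℂ) = 4 * y m ^ 2 := by
        simp [map_ofNat]
      have h2 : aeval ![x m, y m] (X 0 ^ 4 - 2 * C a * X 0 ^ 2 - 8 * C b * X 0 + C a ^ 2 :
          MvPolynomial (Fin 2) ℂ) = x m ^ 4 - 2 * a * x m ^ 2 - 8 * b * x m + a ^ 2 := by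
        simp [map_ofNat]
      rw [h1, h2, hx, dX, div_mul_cancel₀ _ (mul_ne_zero (by norm_num) (pow_ne_zero _ (hy0 m)))]
  have hY : gg (fun m => y (m + 1)) ∈ SG x y := by
    refine ⟨X 0 ^ 6 + 5 * C a * X 0 ^ 4 + 20 * C b * X 0 ^ 3 - 5 * C a ^ 2 * X 0 ^ 2 -
      4 * C a * C b * X 0 - 8 * C b ^ 2 - C a ^ 3, 8 * X 1 ^ 3, ?_, ?_⟩
    · rw [Gv_ev]
      apply hunit
      intro m
      have h1 : aeval ![x m, y m] (8 * X 1 ^ 3 : MvPolynomial (Fin 2) ℂ) = 8 * y m ^ 3 := by
        simp [map_ofNat]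
      rw [h1]
      exact mul_ne_zero (by norm_num) (pow_ne_zero _ (hy0 m))
    · rw [Gv_ev, Gv_ev, ← map_mul]
      congr 1
      funext m
      rw [Pi.mul_apply]
      have h1 : aeval ![x m, y m] (8 * X 1 ^ 3 : MvPolynomial (Fin 2) ℂ) = 8 * y m ^ 3 := by
        simp [map_ofNat]
      have h2 : aeval ![x m, y m] (X 0 ^ 6 + 5 * C a * X 0 ^ 4 + 20 * C b * X 0 ^ 3 -
          5 * C a ^ 2 * X 0 ^ 2 - 4 * C a * C b * X 0 - 8 * C b ^ 2 - C a ^ 3 :
          MvPolynomial (Fin 2) ℂ) = x m ^ 6 + 5 * a * x m ^ 4 + 20 * b * x m ^ 3 -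
            5 * a ^ 2 * x m ^ 2 - 4 * a * b * x m - 8 * b ^ 2 - a ^ 3 := by
        simp [map_ofNat]
      rw [h1, h2, hy, dY, div_mul_cancel₀ _ (mul_ne_zero (by norm_num) (pow_ne_zero _ (hy0 m)))]
  have hpoly : ∀ P : MvPolynomial (Fin 2) ℂ, shG (Gv x y P) ∈ SG x y := by
    intro P
    have h1 : shG (Gv x y P) = aeval ![gg fun m => x (m + 1), gg fun m => y (m + 1)] P := by
      rw [Gv_ev, sh_ev]
      have h2 := Gv_ev (x := fun m => x (m + 1)) (y := fun m => y (m + 1)) P
      rw [← h2]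
      rfl
    rw [h1]
    have h2 : ∀ i, ![gg fun m => x (m + 1), gg fun m => y (m + 1)] i ∈ SG x y := by
      intro i
      fin_cases i
      · exact hX
      · exact hY
    have h3 : aeval ![gg fun m => x (m + 1), gg fun m => y (m + 1)] P ∈
        Algebra.adjoin ℂ (Set.range ![gg fun m => x (m + 1), gg fun m => y (m + 1)]) := by
      rw [Algebra.adjoin_range_eq_range_aeval]
      exact ⟨P, rfl⟩
    have h4 : Algebra.adjoin ℂ (Set.range ![gg fun m => x (m + 1), gg fun m => y (m + 1)]) ≤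
        SG x y := by
      apply Algebra.adjoin_le
      rintro _ ⟨i, rfl⟩
      exact h2 i
    exact h4 h3
  constructor
  · rintro g ⟨r, s, hs, h⟩
    have h1 : IsUnit (shG (Gv x y s)) := hs.map shG
    have h2 : shG (Gv x y s) ≠ 0 := h1.ne_zero
    obtain ⟨t, ht, ht1⟩ := SG_inv hinj hc (hpoly s) h2
    have h3 : shG g = shG (Gv x y r) * t := by
      rw [← h, map_mul, mul_assoc, ht1, mul_one]
    rw [h3]
    exact (SG x y).mul_mem (hpoly r) ht
  · intro g hg h0
    exact SG_inv hinj hc hg h0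

theorem SG_trdeg (hc : ∀ m, y m ^ 2 = x m ^ 3 + a * x m + b)
    (hfld : IsFld (SG x y)) : TrLe (BS (SG x y)) 1 := by
  classical
  let S := SG x y
  let _ : Field S := hfld.isField.toField
  let X' : S := ⟨gg x, ggx_mem⟩
  let Y' : S := ⟨gg y, ggy_mem⟩
  have hXY : Y' ^ 2 = X' ^ 3 + algebraMap ℂ S a * X' + algebraMap ℂ S b := by
    apply Subtype.ext
    exact curve_gg hc
  have halg : Algebra.IsAlgebraic (Algebra.adjoin ℂ ({X'} : Set S)) S := by
    have hX : IsAlgebraic (Algebra.adjoin ℂ ({X'} : Set S)) X' :=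
      isAlgebraic_algebraMap (⟨X', Algebra.subset_adjoin rfl⟩ : Algebra.adjoin ℂ ({X'} : Set S))
    have hconst : ∀ c : ℂ, IsAlgebraic (Algebra.adjoin ℂ ({X'} : Set S)) (algebraMap ℂ S c) :=
      fun c => isAlgebraic_algebraMap (algebraMap ℂ (Algebra.adjoin ℂ ({X'} : Set S)) c)
    have hY2 : IsAlgebraic (Algebra.adjoin ℂ ({X'} : Set S)) (Y' ^ 2) := by
      rw [hXY]
      exact ((hX.pow 3).add ((hconst a).mul hX)).add (hconst b)
    have hY : IsAlgebraic (Algebra.adjoin ℂ ({X'} : Set S)) Y' := by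
      exact hY2.of_pow two_pos
    have hP : ∀ P : MvPolynomial (Fin 2) ℂ,
        IsAlgebraic (Algebra.adjoin ℂ ({X'} : Set S)) (aeval ![X', Y'] P) := by
      intro P
      induction P using MvPolynomial.induction_on with
      | C c =>
        rw [← algebraMap_eq, AlgHom.commutes]
        exact hconst c
      | add p q hp hq =>
        rw [map_add]
        exact hp.add hq
      | mul_X p i hp =>
        rw [map_mul, aeval_X]
        refine hp.mul ?_
        fin_cases i
        · exact hX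
        · exact hY
    have hcoe : ∀ P : MvPolynomial (Fin 2) ℂ, ((aeval ![X', Y'] P : S) : GG) = Gv x y P := by
      intro P
      have h1 : S.val (aeval ![X', Y'] P) = aeval (fun i => S.val (![X', Y'] i)) P := by
        rw [← AlgHom.comp_apply, comp_aeval]
      have h2 : (fun i => S.val (![X', Y'] i)) = ![gg x, gg y] := by
        funext i
        fin_cases i <;> rfl
      rw [h2] at h1
      exact h1
    refine ⟨fun z => ?_⟩
    obtain ⟨r, s, hs, h⟩ := z.2
    have hs0 : aeval ![X', Y'] s ≠ (0 : S) := by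
      intro h0
      apply hs.ne_zero
      rw [← hcoe, h0]
      rfl
    have h1 : z * aeval ![X', Y'] s = aeval ![X', Y'] r := by
      apply Subtype.ext
      rw [hcoe]
      change (z : GG) * ((aeval ![X', Y'] s : S) : GG) = _
      rw [hcoe]
      exact h
    have h2 : z = aeval ![X', Y'] r * (aeval ![X', Y'] s)⁻¹ := by
      rw [← h1, mul_assoc, mul_inv_cancel₀ hs0, mul_one]
    rw [h2]
    exact (hP r).mul (hP s).inv
  have htr : Algebra.trdeg ℂ S ≤ 1 := by
    have h1 := Algebra.IsAlgebraic.trdeg_le_cardinalMk (R := ℂ) (A := S) (s := {X'})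
    rwa [Cardinal.mk_singleton] at h1
  intro β hβ
  have hnot : ¬ AlgebraicIndependent ℂ fun i => (⟨gg (β i), hβ i⟩ : S) := by
    intro hai
    have h1 := hai.lift_cardinalMk_le_trdeg
    have h2 : ((2 : ℕ) : Cardinal) ≤ (1 : ℕ) := by
      refine le_trans ?_ (le_trans htr (by norm_num))
      simpa using h1
    exact absurd (Nat.cast_le.1 h2) (by omega)
  rw [algebraicIndependent_iff] at hnot
  push Not at hnot
  obtain ⟨P, hP, hP0⟩ := hnot
  refine ⟨P, hP0, ?_⟩
  have h1 : S.val (aeval (fun i => (⟨gg (β i), hβ i⟩ : S)) P) = aeval (fun i => gg (β i)) P := by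
    rw [← AlgHom.comp_apply, comp_aeval]
    rfl
  rw [hP, map_zero, aeval_gg, eq_comm, gg_zero] at h1
  exact h1

theorem SG_fg : FinGen (BS (SG x y)) := by
  refine ⟨{x, y}, (Set.finite_singleton y).insert x, ?_, ?_⟩
  · rintro f (rfl | hf)
    · exact ggx_mem
    · rw [Set.mem_singleton_iff.1 hf]
      exact ggy_mem
  · rintro c ⟨r, s, hs, h⟩
    have hev : ∀ P : MvPolynomial (Fin 2) ℂ, gg (aeval ![x, y] P) = Gv x y P := by
      intro P
      rw [← AlgHom.comp_apply, comp_aeval]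
      have h1 : (fun i => gg (![x, y] i)) = ![gg x, gg y] := by
        funext i
        fin_cases i <;> rfl
      rw [h1]
      rfl
    have hmem : ∀ P : MvPolynomial (Fin 2) ℂ, (aeval ![x, y] P : ℕ → ℂ) ∈
        Algebra.adjoin ℂ ({x, y} : Set (ℕ → ℂ)) := by
      intro P
      have h1 : (aeval ![x, y] P : ℕ → ℂ) ∈ Algebra.adjoin ℂ (Set.range ![x, y]) := by
        rw [Algebra.adjoin_range_eq_range_aeval]
        exact ⟨P, rfl⟩
      have h2 : Set.range ![x, y] = ({x, y} : Set (ℕ → ℂ)) := by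
        rw [Matrix.range_cons, Matrix.range_cons, Matrix.range_empty, Set.union_empty,
          Set.singleton_union]
      rwa [h2] at h1
    refine ⟨_, hmem r, _, hmem s, ?_, ?_⟩
    · apply unit_ne
      rw [hev]
      exact hs
    · have h1 : gg (c * aeval ![x, y] s) = gg (aeval ![x, y] r) := by
        rw [map_mul, hev, hev]
        exact h
      exact gg_eq.1 h1

/-- values of polynomials at the points of the orbit -/
theorem poly_mem (P Q : Polynomial ℂ) : (fun m => P.eval (x m) + Q.eval (x m) * y m) ∈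
    BS (SG x y) := by
  have h1 : ∀ p : Polynomial ℂ, gg (fun m => p.eval (x m)) ∈ SG x y := by
    intro p
    have h2 : gg (fun m => p.eval (x m)) = Polynomial.aeval (gg x) p := by
      rw [Polynomial.aeval_algHom_apply]
      congr 1
      funext m
      rw [aeval_seq]
    rw [h2]
    exact Algebra.adjoin_le (Set.singleton_subset_iff.2 (ggx_mem (x := x) (y := y)))
      (Polynomial.aeval_mem_adjoin_singleton ℂ (gg x) (p := p))
  have h2 : gg (fun m => P.eval (x m) + Q.eval (x m) * y m) =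
      gg (fun m => P.eval (x m)) + gg (fun m => Q.eval (x m)) * gg y := by
    rw [← map_mul, ← map_add]
    rfl
  rw [mem_BS, h2]
  exact (SG x y).add_mem (h1 P) ((SG x y).mul_mem (h1 Q) ggy_mem)

end Pool.Agent.T2H23.EL
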