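import Pool.Agent.T2H23.EL.Orb
import Pool.Agent.T2H23.EL.Fld
import Pool.Agent.Y719.LC.Ent
import Pool.Agent.Y377.IL.AllA
import Pool.Agent.Y189.DC.Fin

/-!
The equivalence of hyperbolicity and finiteness of rational points on the level of elliptic curves.
-/

set_option autoImplicit false

namespace Pool.Agent.T2H23.EL

open MvPolynomial Filter Pool.Agent.Y719.LC Pool.Agent.TH143.HE Pool.Agent.TH143.GE
open Pool.Agent.TH143.EL (TorusMapsIn InV HolMap TrOne rep_rep inV_iff trOne_ell Ell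
  ratCurves_of_torus)
open scoped LinearAlgebra.Projectivization

variable {N : ℕ} {K : Type} [Field K] {I I' : Ideal (MvPolynomial (Fin (N + 1)) K)}

/-! ### complex curves -/

theorem mem_iff {σ : K →+* ℂ} {J : Ideal (MvPolynomial (Fin (N + 1)) K)}
    {p : ℙ ℂ (Fin (N + 1) → ℂ)} : p ∈ Pts σ J ↔ InV (cI σ J) p :=
  (inV_cI (rep_rep p)).symm

theorem torus_iff {σ : K →+* ℂ} : TorusHyperbolic σ I I' ↔ TorusMapsIn (cI σ I) (cI σ I') := by
  constructor
  · intro h ω₁ ω₂ hind f hf h1 h2 hI hnc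
    by_contra hcon
    push Not at hcon
    obtain ⟨z, hz⟩ := hcon
    exact h f ⟨ω₁, ω₂, hind, h1, h2⟩ ⟨hf, fun z => mem_iff.2 (hI z), hnc, z, fun hz' =>
      hz (mem_iff.1 hz')⟩
  · rintro h f ⟨ω₁, ω₂, hind, h1, h2⟩ ⟨hf, hI, hnc, z, hz⟩
    exact hz (mem_iff.2 (h ω₁ ω₂ hind f hf h1 h2 (fun z => mem_iff.1 (hI z)) hnc z))

theorem iterated_to {B : Subalgebra ℂ (ℂ → ℂ)} {h : ℂ → ℂ} (hh : Iterated B h) :
    Pool.Agent.Y377.IL.IterLin B h := by
  induction hh with
  | quot h1 h2 => exact .quot h1 h2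
  | add _ _ h1 h2 => exact .add h1 h2
  | mul _ _ h1 h2 => exact .mul h1 h2
  | ode A y _ h2 h3 i ih => exact .ode A y ih h2 h3 i

theorem diffRing_iff {B : Subalgebra ℂ (ℂ → ℂ)} : DiffRing B ↔ TrOne B :=
  ⟨fun h => ⟨h.mero, h.der, h.dep⟩, fun h => ⟨h.mero, h.der, h.dep⟩⟩

theorem iterated_of_torus {σ : K →+* ℂ} (h : TorusHyperbolic σ I I') :
    IteratedHyperbolic σ I I' := by
  rintro f ⟨B, hB, u, hu, hr⟩ ⟨hf, hI, hnc, z, hz⟩
  apply hz
  rw [mem_iff]
  exact Pool.Agent.Y377.IL.iter_main (torus_iff.1 h) (diffRing_iff.1 hB) hf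
    (fun j => iterated_to (hu j)) hr (fun z => mem_iff.1 (hI z)) hnc z

theorem torus_of_iterated {σ : K →+* ℂ} (h : IteratedHyperbolic σ I I') :
    TorusHyperbolic σ I I' := by
  rintro f ⟨ω₁, ω₂, hind, h1, h2⟩ hc
  obtain ⟨u, hu, hr⟩ := Pool.Agent.TH600.LK.torus_coords_ell hc.hol h1 h2
  refine h f ⟨Ell ω₁ ω₂, diffRing_iff.2 (trOne_ell hind), fun j z => u z j, fun j => ?_, hr⟩ hc
  have h3 := Iterated.quot (hu j) (Ell ω₁ ω₂).one_mem
  have h4 : (fun z => u z j / (1 : ℂ → ℂ) z) = fun z => u z j := by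
    funext z
    exact div_one _
  rwa [h4] at h3

theorem functional_iff {τ : ℂ → ℂ} {f : ℂ → ℙ ℂ (Fin (N + 1) → ℂ)} :
    FunctionalCurve τ f ↔ Pool.Agent.Y189.DC.FunctionalCurve τ f := by
  constructor
  · rintro ⟨h1, h2, h3, U, ⟨u1, u2, u3, u4⟩, h⟩
    exact ⟨⟨h1, h2⟩, h3, U, ⟨u1, u2, u3, u4⟩, h⟩
  · rintro ⟨⟨h1, h2⟩, h3, U, ⟨u1, u2, u3, u4⟩, h⟩
    exact ⟨h1, h2, h3, U, ⟨u1, u2, u3, u4⟩, h⟩

theorem functional_of_torus {σ : K →+* ℂ} (h : TorusHyperbolic σ I I') :
    FunctionalHyperbolic σ I I' := by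
  rintro f ⟨hf, hI, hnc, z, hz⟩
  obtain ⟨b, hb⟩ := (Pool.Agent.Y189.DC.final (cI σ I) (cI σ I')).1 (torus_iff.1 h) f hf
    (fun z => mem_iff.1 (hI z)) ⟨z, fun hz' => hz (mem_iff.2 hz')⟩ hnc
  refine ⟨b, fun τ hτ => ?_⟩
  obtain ⟨r, hr, -⟩ := hb τ (functional_iff.1 hτ)
  exact ⟨r, hr⟩

theorem torus_of_functional {σ : K →+* ℂ} (H : FunctionalHyperbolic σ I I') :
    TorusHyperbolic σ I I' := by
  rintro f ⟨ω₁, ω₂, hind, h1, h2⟩ hc
  obtain ⟨b, hb⟩ := H f hc
  obtain ⟨h, hh, hr⟩ := Pool.Agent.TH600.LK.torus_coords_ell hc.hol h1 h2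
  have hω₁ : ω₁ ≠ 0 := by
    have := hind.ne_zero 0
    simpa using this
  have hω₂ : ω₂ ≠ 0 := by
    have := hind.ne_zero 1
    simpa using this
  obtain ⟨r₁, e1⟩ := hb _ (functional_iff.2 (Pool.Agent.Y189.DC.periodic_curve (f := f)
    (h := fun j z => h z j) hω₁ (fun j => (hh j).1) (fun j z => (hh j).2.1 z) hr))
  obtain ⟨r₂, e2⟩ := hb _ (functional_iff.2 (Pool.Agent.Y189.DC.periodic_curve (f := f)
    (h := fun j z => h z j) hω₂ (fun j => (hh j).1) (fun j z => (hh j).2.2 z) hr))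
  have e3 : ω₁ = r₁ * b := by
    have := e1 0
    simpa using this
  have e4 : ω₂ = r₂ * b := by
    have := e2 0
    simpa using this
  have e5 := (LinearIndependent.pair_iff.1 hind) (r₂ : ℝ) (-(r₁ : ℝ)) (by
    rw [Complex.real_smul, Complex.real_smul, e3, e4]
    push_cast
    ring)
  apply hω₂
  have e6 : r₂ = 0 := by exact_mod_cast e5.1
  rw [e4, e6]
  simp

/-! ### curves of genus at most one -/

theorem noLine_iff {A : Type} [Field A] {φ : K →+* A} :
    NoLine φ I I' ↔ ∀ p, ¬ RCur φ I I' p := by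
  constructor
  · rintro h p ⟨h1, ⟨G, hG, hGh, hne⟩, hnc⟩
    exact hne (h p h1 hnc G hG hGh)
  · intro h p h1 hnc G hG hGh
    by_contra hne
    exact h p ⟨h1, ⟨G, hG, hGh, hne⟩, hnc⟩

theorem noEll_iff {A : Type} [Field A] {φ : K →+* A} :
    NoEll φ I I' ↔ EllIn φ I I' := by
  constructor
  · rintro h a b P Q ⟨hns, h1, ⟨G, hG, hGh, hne⟩, hnc⟩
    exact hne (h a b P Q hns h1 hnc G hG hGh)
  · intro h a b P Q hns h1 hnc G hG hGh
    by_contra hne
    exact h a b P Q ⟨hns, h1, ⟨G, hG, hGh, hne⟩, hnc⟩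

section

variable [NumberField K]

/-- embeddings of the finite extensions -/
theorem exists_emb (σ : K →+* ℂ) (L : Type) [Field L] [NumberField L] [Algebra K L] :
    ∃ e : L →+* ℂ, e.comp (algebraMap K L) = σ := by
  let _ : Algebra K ℂ := σ.toAlgebra
  have halg : Algebra.IsAlgebraic K L := Algebra.IsAlgebraic.tower_top (K := ℚ) K
  let e : L →ₐ[K] ℂ := IsAlgClosed.lift
  refine ⟨e, ?_⟩
  ext r
  exact e.commutes _

theorem noGenusOne_of_complex {σ : K →+* ℂ} (h1 : RatCurvesIn σ I I') (h2 : EllIn σ I I') :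
    NoGenusOne I I' := by
  intro L _ _ _
  obtain ⟨e, he⟩ := exists_emb σ L
  constructor
  · rw [noLine_iff]
    intro p hp
    have h3 := hp.map e
    rw [he] at h3
    exact ratCurvesIn_iff.1 h1 _ h3
  · rw [noEll_iff]
    intro a b P Q hp
    have h3 := hp.map e
    rw [he] at h3
    exact h2 _ _ _ _ h3

theorem complex_of_noGenusOne (h : NoGenusOne I I') (σ : K →+* ℂ) :
    RatCurvesIn σ I I' ∧ EllIn σ I I' := by
  let _ : Algebra K ℂ := σ.toAlgebra
  constructor
  · rw [ratCurvesIn_iff]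
    intro p hp
    have hp1 : RCur ((algebraMap K ℂ).comp (RingHom.id K)) I I' p := hp
    obtain ⟨L, _, _, _, p', hp'⟩ := RCur.spec (k := K) (E := ℂ) (RingHom.id K) hp1
    have hchar : CharZero L := charZero_of_injective_algebraMap (algebraMap K L).injective
    have hfin : FiniteDimensional ℚ L := FiniteDimensional.trans ℚ K L
    have hnf : NumberField L := ⟨⟩
    rw [RingHom.comp_id] at hp'
    exact noLine_iff.1 (h L).1 _ hp'
  · intro a b P Q hp
    have hp1 : ECur ((algebraMap K ℂ).comp (RingHom.id K)) I I' a b P Q := hp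
    obtain ⟨L, _, _, _, a', b', P', Q', hp'⟩ := ECur.spec (k := K) (E := ℂ) (RingHom.id K) hp1
    have hchar : CharZero L := charZero_of_injective_algebraMap (algebraMap K L).injective
    have hfin : FiniteDimensional ℚ L := FiniteDimensional.trans ℚ K L
    have hnf : NumberField L := ⟨⟩
    rw [RingHom.comp_id] at hp'
    exact noEll_iff.1 (h L).2 _ _ _ _ hp'

theorem noGenusOne_of_torus {σ : K →+* ℂ} (h : TorusHyperbolic σ I I') : NoGenusOne I I' := by
  have hT := torus_iff.1 h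
  refine noGenusOne_of_complex (σ := σ) (rat_cI.1 (ratCurves_of_torus hT)) (ell_of_ent ?_)
  rintro f hf ⟨B, hB, u, hu, hr⟩ hI hnc z
  refine Pool.Agent.Y377.IL.iter_main hT hB hf (fun j => ?_) hr hI hnc z
  have h3 := Pool.Agent.Y377.IL.IterLin.quot (hu j) B.one_mem
  have h4 : (fun z => u j z / (1 : ℂ → ℂ) z) = u j := by
    funext z
    exact div_one _
  rwa [h4] at h3

theorem torus_of_noGenusOne (h : NoGenusOne I I') (σ : K →+* ℂ) : TorusHyperbolic σ I I' := by
  obtain ⟨h1, h2⟩ := complex_of_noGenusOne h σ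
  exact torus_iff.2 (torus_of_alg h1 h2)

/-! ### points on elliptic curves -/

omit [NumberField K] in
theorem uniform_of_noGenusOne (h : NoGenusOne I I') : UniformFinite I I' := by
  obtain ⟨T, hT, hgen⟩ := exists_forms I
  refine ⟨6 * T.sup (fun G => G.totalDegree) + 1, fun L _ _ _ a b hns D P Q hD => ?_⟩
  exact encard_le hT hgen (noEll_iff.1 (h L).2 a b P Q) hns hD

omit [NumberField K] in
theorem mordellWeil_of_uniform (h : UniformFinite I I') : MordellWeilFinite I I' := by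
  obtain ⟨C, hC⟩ := h
  intro L _ _ _ a b hns P Q
  refine Set.finite_of_encard_le_coe (hC L a b hns (Finset.univ.sup (fun j => (P j).natDegree) +
    Finset.univ.sup (fun j => (Q j).natDegree)) P Q fun j => ⟨?_, ?_⟩)
  · exact (Finset.le_sup (f := fun j => (P j).natDegree) (Finset.mem_univ j)).trans
      (Nat.le_add_right _ _)
  · exact (Finset.le_sup (f := fun j => (Q j).natDegree) (Finset.mem_univ j)).trans
      (Nat.le_add_left _ _)

omit [NumberField K] in
theorem doubling_of_mordellWeil (h : MordellWeilFinite I I') : DoublingFinite I I' := by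
  intro L _ _ _ _ a b hns P Q p c hc hX
  refine (h L a b hns P Q).subset ?_
  rintro _ ⟨m, rfl⟩
  obtain ⟨x, y, hxy, -, hr⟩ := hc m
  refine ⟨⟨x, y, ?_, hr⟩, hX m⟩
  have h1 := (WeierstrassCurve.Affine.nonsingular_iff _ _).1 hxy
  have h2 := (WeierstrassCurve.Affine.equation_iff _ _).1 h1.1
  simp only [cubic] at h2
  linear_combination h2

omit [NumberField K] in
theorem noGenusOne_of {H : Prop} (h : H) (key : H → ∀ (L : Type) [Field L] [NumberField L]
    [Algebra K L] (a b : L) (P Q : Fin (N + 1) → Polynomial L),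
      ¬ ECur (algebraMap K L) I I' a b P Q) : NoGenusOne I I' := by
  intro L _ _ _
  constructor
  · rw [noLine_iff]
    intro p hp
    exact key h L _ _ _ _ (ecur_of_rcur hp)
  · rw [noEll_iff]
    intro a b P Q
    exact key h L a b P Q

omit [NumberField K] in
theorem noGenusOne_of_doubling (h : DoublingFinite I I') : NoGenusOne I I' := by
  classical
  refine noGenusOne_of h fun h L _ _ _ a0 b0 P0 Q0 hE => ?_
  obtain ⟨L', _, _, _, a, b, P, Q, x, y, hns, hinj, hy0, hc, hx, hy, hne, hX, hZ, hfib⟩ :=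
    orbit_of_ecur hE
  obtain ⟨p, hp⟩ := orbit hns hy0 hc hx hy
  let c : ℕ → ℙ L' (Fin (N + 1) → L') := fun m =>
    Projectivization.mk L' (val P Q (x m) (y m)) (hne m)
  have hrep : ∀ m, Rep (c m) (val P Q (x m) (y m)) := fun m => ⟨hne m, rfl⟩
  have hfin := h L' a b hns P Q p c (fun m => by
    obtain ⟨hn, hpm⟩ := hp m
    exact ⟨x m, y m, hn, hpm, hrep m⟩) fun m => ⟨(mem_pts (hrep m)).2 (hX m),
      fun h0 => hZ m ((mem_pts (hrep m)).1 h0)⟩
  have h7 := hfin.preimage' (f := c) fun q _ => by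
    refine (hfib q.rep q.rep_nonzero).subset fun m hm i j => ?_
    have h8 : c m = q := hm
    rw [← h8]
    obtain ⟨t, ht⟩ := Projectivization.exists_smul_eq_mk_rep L' _ (hne m)
    change val P Q (x m) (y m) i * (Projectivization.mk L' (val P Q (x m) (y m)) (hne m)).rep j =
      val P Q (x m) (y m) j * (Projectivization.mk L' (val P Q (x m) (y m)) (hne m)).rep i
    rw [← ht]
    change val P Q (x m) (y m) i * ((t : L') * val P Q (x m) (y m) j) =
      val P Q (x m) (y m) j * ((t : L') * val P Q (x m) (y m) i)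
    ring
  rw [Set.preimage_range] at h7
  exact Set.infinite_univ h7

/-! ### sequences -/

theorem seqField_iff {B : Subalgebra ℂ (ℕ → ℂ)} : SeqField B ↔ Pool.Agent.TH143.DE.CoefField B :=
  ⟨fun h => ⟨⟨h.shift, h.dich⟩, h.inv⟩, fun h => ⟨h.shift, h.dich, h.inv⟩⟩

theorem trLe_iff {B : Subalgebra ℂ (ℕ → ℂ)} : (∀ b ∈ B, ∀ c ∈ B, ∃ P : MvPolynomial (Fin 2) ℂ,
    P ≠ 0 ∧ ∀ᶠ m in atTop, eval ![b m, c m] P = 0) ↔ Pool.Agent.TH143.DE.TrLe B 1 := by
  constructor
  · intro h b hb
    obtain ⟨P, hP, h1⟩ := h (b 0) (hb 0) (b 1) (hb 1)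
    refine ⟨P, hP, ?_⟩
    filter_upwards [h1] with m hm
    have h2 : (fun i => b i m) = ![b 0 m, b 1 m] := by
      funext i
      fin_cases i <;> rfl
    rw [h2]
    exact hm
  · intro h b hb c hc
    obtain ⟨P, hP, h1⟩ := h ![b, c] (fun i => by fin_cases i; exacts [hb, hc])
    refine ⟨P, hP, ?_⟩
    filter_upwards [h1] with m hm
    have h2 : (fun i => ![b, c] i m) = ![b m, c m] := by
      funext i
      fin_cases i <;> rfl
    rw [h2] at hm
    exact hm

theorem tow_to {B : Subalgebra ℂ (ℕ → ℂ)} (h : SeqTower B) : Tow1 B := by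
  induction h with
  | base h1 h2 h3 =>
    obtain ⟨U, hU, hUB, hg⟩ := h2
    exact .base (seqField_iff.1 h1) ⟨U, hU, hUB, hg⟩ (trLe_iff.1 h3)
  | step _ h2 h3 h4 ih =>
    obtain ⟨U, hU, hUr, hUB, hg⟩ := h4
    exact .step ih (seqField_iff.1 h2) ⟨h3, U, hU, hUr, hUB, hg⟩

theorem tower_of_noGenusOne (h : NoGenusOne I I') : TowerPeriodic I I' := by
  intro L _ _ _ e B hB c x hcx hrec hX
  set φ : K →+* ℂ := e.comp (algebraMap K L) with hφ
  obtain ⟨h1, h2⟩ := complex_of_noGenusOne h φ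
  have hgood := tow1_good h1 (genusOne_of_ell h2) (tow_to hB)
  have hpt : ∀ (J : Ideal (MvPolynomial (Fin (N + 1)) K)) (v : Fin (N + 1) → L),
      IsPtP φ J (fun j => e (v j)) ↔ Zero (algebraMap K L) J v := by
    intro J v
    have h1 : ∀ G : MvPolynomial (Fin (N + 1)) K, eval₂ φ (fun j => e (v j)) G =
        e (eval₂ (algebraMap K L) v G) := fun G =>
      (eval₂_comp_left e (algebraMap K L) v G).symm
    unfold IsPtP Zero
    simp only [h1, map_eq_zero]
  obtain ⟨k, m0, hk, hper⟩ := hgood (fun m j => e (x m j))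
    (Eventually.of_forall fun m h0 => (hcx m).1 (funext fun j => by
      have h3 : e (x m j) = 0 := congrFun h0 j
      rwa [map_eq_zero] at h3)) hrec
    (Eventually.of_forall fun m => (hpt I (x m)).2 ((mem_pts (hcx m)).1 (hX m).1))
    (Eventually.of_forall fun m h0 => (hX m).2 ((mem_pts (hcx m)).2 ((hpt I' (x m)).1 h0)))
  refine ⟨k, m0, hk, fun m hm => ?_⟩
  obtain ⟨hn1, h3⟩ := hcx (m + k)
  obtain ⟨hn2, h4⟩ := hcx m
  rw [h3, h4]
  obtain ⟨l, hl⟩ := Function.ne_iff.1 hn2
  have hl' : x m l ≠ 0 := hl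
  rw [Projectivization.mk_eq_mk_iff']
  refine ⟨x (m + k) l / x m l, ?_⟩
  funext i
  have h5 := hper m hm i l
  rw [← map_mul, ← map_mul] at h5
  have h6 := e.injective h5
  rw [Pi.smul_apply, smul_eq_mul, div_mul_eq_mul_div, div_eq_iff hl']
  exact h6.symm

/-- the elements of the ring satisfy recurrences -/
theorem linRec_mem {B : Subalgebra ℂ (ℕ → ℂ)} (hB : SeqField B) {b : ℕ → ℂ} (hb : b ∈ B) :
    LinRec B b := by
  by_cases h0 : ∀ᶠ m in atTop, b m = 0
  · refine ⟨0, fun _ => 1, fun _ => B.one_mem, ⟨0, le_rfl, fun h => ?_⟩, ?_⟩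
    · obtain ⟨m, hm⟩ := h.exists
      exact one_ne_zero hm
    · filter_upwards [h0] with m hm
      simp [hm]
  · refine ⟨1, fun k => if k = 0 then fun m => b (m + 1) else if k = 1 then fun m => - b m else 0,
      fun k => ?_, ⟨1, le_rfl, fun h => h0 ?_⟩, Eventually.of_forall fun m => ?_⟩
    · by_cases hk : k = 0
      · simp only [if_pos hk]
        exact hB.shift b hb
      · by_cases hk1 : k = 1
        · simp only [if_neg hk, if_pos hk1]
          exact B.neg_mem hb
        · simp only [if_neg hk, if_neg hk1]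
          exact B.zero_mem
    · filter_upwards [h] with m hm
      simpa using hm
    · rw [Finset.sum_range_succ, Finset.sum_range_one]
      simp
      ring

omit [NumberField K] in
theorem noGenusOne_of_tower (h : TowerPeriodic I I') : NoGenusOne I I' := by
  classical
  refine noGenusOne_of h fun h L _ _ _ a0 b0 P0 Q0 hE => ?_
  obtain ⟨L', _, _, _, a, b, P, Q, x, y, hns, hinj, hy0, hc, hx, hy, hne, hX, hZ, hfib⟩ :=
    orbit_of_ecur hE
  obtain ⟨e⟩ : Nonempty (L' →+* ℂ) := inferInstance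
  set ex : ℕ → ℂ := fun m => e (x m) with hex
  set ey : ℕ → ℂ := fun m => e (y m) with hey
  have einj : Function.Injective ex := e.injective.comp hinj
  have ey0 : ∀ m, ey m ≠ 0 := fun m h0 => hy0 m (by rwa [hey, map_eq_zero] at h0)
  have ec : ∀ m, ey m ^ 2 = ex m ^ 3 + e a * ex m + e b := by
    intro m
    simp only [hex, hey]
    rw [← map_pow, hc, map_add, map_add, map_pow, map_mul]
  have edx : ∀ m, ex (m + 1) = dX (e a) (e b) (ex m) (ey m) := by
    intro m
    simp only [hex, hey]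
    rw [hx]
    simp only [dX, map_div₀, map_add, map_sub, map_mul, map_pow, map_ofNat]
  have edy : ∀ m, ey (m + 1) = dY (e a) (e b) (ex m) (ey m) := by
    intro m
    simp only [hex, hey]
    rw [hy]
    simp only [dY, map_div₀, map_add, map_sub, map_mul, map_pow, map_ofNat]
  have hfld := SG_fld einj ey0 ec edx edy
  have hB : SeqField (BS (SG ex ey)) := seqField_iff.2 hfld.field
  have htow : SeqTower (BS (SG ex ey)) := by
    refine .base hB ?_ (trLe_iff.2 (SG_trdeg ec hfld))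
    obtain ⟨U, hU, hUB, hg⟩ := SG_fg (x := ex) (y := ey)
    exact ⟨U, hU, hUB, hg⟩
  let c : ℕ → ℙ L' (Fin (N + 1) → L') := fun m =>
    Projectivization.mk L' (val P Q (x m) (y m)) (hne m)
  have hrep : ∀ m, Rep (c m) (val P Q (x m) (y m)) := fun m => ⟨hne m, rfl⟩
  obtain ⟨k, m0, hk, hper⟩ := h L' e _ htow c (fun m => val P Q (x m) (y m)) hrep (fun j => by
    apply linRec_mem hB
    have h1 := poly_mem (x := ex) (y := ey) ((P j).map e) ((Q j).map e)
    have h2 : (fun m => e (val P Q (x m) (y m) j)) = fun m =>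
        ((P j).map e).eval (ex m) + ((Q j).map e).eval (ex m) * ey m := by
      funext m
      simp only [val, hex, hey, map_add, map_mul, Polynomial.eval_map, Polynomial.eval₂_at_apply]
    rw [h2]
    exact h1) fun m => ⟨(mem_pts (hrep m)).2 (hX m),
      fun h0 => hZ m ((mem_pts (hrep m)).1 h0)⟩
  have hmul : ∀ r, c (m0 + k * r) = c m0 := by
    intro r
    induction r with
    | zero => rfl
    | succ r ih =>
      rw [← ih, ← hper (m0 + k * r) (by omega)]
      congr 1
      ring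
  have hfin := hfib _ (hne m0)
  apply hfin.not_infinite
  refine Set.Infinite.mono (s := Set.range fun r => m0 + k * r) ?_
    (Set.infinite_range_of_injective fun r r' hrr => ?_)
  · rintro _ ⟨r, rfl⟩ i j
    have h3 := hmul r
    simp only [c, Projectivization.mk_eq_mk_iff'] at h3
    obtain ⟨t, ht⟩ := h3
    rw [← ht]
    simp only [Pi.smul_apply, smul_eq_mul]
    ring
  · have h4 : m0 + k * r = m0 + k * r' := hrr
    exact Nat.eq_of_mul_eq_mul_left hk (by omega)

/-- **The main theorem.** -/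
theorem main (σ : K →+* ℂ) (I I' : Ideal (MvPolynomial (Fin (N + 1)) K)) :
    [TorusHyperbolic σ I I', IteratedHyperbolic σ I I', FunctionalHyperbolic σ I I',
      NoGenusOne I I', UniformFinite I I', MordellWeilFinite I I', DoublingFinite I I',
      TowerPeriodic I I'].TFAE ∧
    (Hyperbolic σ I I' → NoGenusOne I I') ∧ (Finiteness I I' → NoGenusOne I I') := by
  refine ⟨?_, fun h => noGenusOne_of_torus (σ := σ) fun f _ => h f, fun h => ?_⟩
  · tfae_have 1 → 2 := iterated_of_torus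
    tfae_have 2 → 1 := torus_of_iterated
    tfae_have 1 → 3 := functional_of_torus
    tfae_have 3 → 1 := torus_of_functional
    tfae_have 1 → 4 := noGenusOne_of_torus
    tfae_have 4 → 1 := fun h => torus_of_noGenusOne h σ
    tfae_have 4 → 5 := uniform_of_noGenusOne
    tfae_have 5 → 6 := mordellWeil_of_uniform
    tfae_have 6 → 7 := doubling_of_mordellWeil
    tfae_have 7 → 4 := noGenusOne_of_doubling
    tfae_have 4 → 8 := tower_of_noGenusOne
    tfae_have 8 → 4 := noGenusOne_of_tower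
    tfae_finish
  · refine noGenusOne_of_doubling (doubling_of_mordellWeil fun L _ _ _ a b _ P Q => ?_)
    exact (h L).subset Set.inter_subset_right

end

end Pool.Agent.T2H23.EL
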