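import Pool.Agent.T2H23.EL.Val
import Pool.Agent.T2H23.EL.Crv
import Pool.Agent.Y719.LC.Sing

/-!
The orbits of the duplication on curves in projective varieties over number fields.
-/

set_option autoImplicit false

namespace Pool.Agent.T2H23.EL

open MvPolynomial Filter Pool.Agent.Y719.LC Pool.Agent.TH143.HE

variable {N : ℕ}

/-- a nonzero function is zero at finitely many points of the orbit only -/
theorem finite_zeros {A : Type} [Field A] {a b : A} {x y : ℕ → A} (hinj : Function.Injective x)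
    (hc : ∀ m, y m ^ 2 = x m ^ 3 + a * x m + b) {α β : Polynomial A} (h0 : ¬ (α = 0 ∧ β = 0)) :
    {m | α.eval (x m) + β.eval (x m) * y m = 0}.Finite := by
  have h1 : ((fun m => x m) ⁻¹' {t | (nrm a b α β).IsRoot t}).Finite :=
    (Polynomial.finite_setOfPred_isRoot (nrm_ne h0)).preimage hinj.injOn
  exact h1.subset fun m hm => nrm_zero (hc m) hm

/-- a nonconstant map from the line gives a nonconstant map from the curve `y² = x³ + 1` -/
theorem ecur_of_rcur {A : Type} [Field A] [CharZero A] {K : Type} [Field K] {φ : K →+* A}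
    {I I' : Ideal (MvPolynomial (Fin (N + 1)) K)} {p : Fin (N + 1) → Polynomial A}
    (h : RCur φ I I' p) : ECur φ I I' 0 1 p 0 := by
  obtain ⟨h1, ⟨G', hG', hGh, hne⟩, j, k, i, i', hnc⟩ := h
  have key : ∀ G : MvPolynomial (Fin (N + 1)) K, onC φ 0 1 p 0 G =
      Polynomial.C (eval₂ (Polynomial.C.comp φ) p G) := by
    intro G
    have e1 : eval₂ (Polynomial.C.comp (Polynomial.C.comp φ)) (tup p 0) G =
        Polynomial.C (eval₂ (Polynomial.C.comp φ) p G) := by
      rw [eval₂_comp_left]
      congr 1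
      funext j
      simp [tup]
    unfold onC
    rw [e1, (Polynomial.modByMonic_eq_self_iff (wq_monic 0 1)).2]
    refine lt_of_le_of_lt Polynomial.degree_C_le ?_
    rw [Polynomial.degree_eq_natDegree (wq_monic 0 1).ne_zero, wq_natDegree]
    norm_num
  refine ⟨by norm_num, fun G hG hGf => ?_, ⟨G', hG', hGh, ?_⟩, j, k, (true, i), (true, i'), hnc⟩
  · rw [key, h1 G hG hGf, Polynomial.C_0]
  · rw [key, Ne, Polynomial.C_eq_zero]
    exact hne

/-- **The orbit** on a curve in a projective variety. -/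
theorem orbit_of_ecur {K : Type} [Field K] {I I' : Ideal (MvPolynomial (Fin (N + 1)) K)}
    {L : Type} [Field L] [NumberField L] [Algebra K L] {a0 b0 : L}
    {P0 Q0 : Fin (N + 1) → Polynomial L} (h : ECur (algebraMap K L) I I' a0 b0 P0 Q0) :
    ∃ (L' : Type) (_ : Field L') (_ : NumberField L') (_ : Algebra K L') (a b : L')
      (P Q : Fin (N + 1) → Polynomial L') (x y : ℕ → L'), 4 * a ^ 3 + 27 * b ^ 2 ≠ 0 ∧
      Function.Injective x ∧ (∀ m, y m ≠ 0) ∧ (∀ m, y m ^ 2 = x m ^ 3 + a * x m + b) ∧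
      (∀ m, x (m + 1) = dX a b (x m) (y m)) ∧ (∀ m, y (m + 1) = dY a b (x m) (y m)) ∧
      (∀ m, val P Q (x m) (y m) ≠ 0) ∧ (∀ m, Zero (algebraMap K L') I (val P Q (x m) (y m))) ∧
      (∀ m, ¬ Zero (algebraMap K L') I' (val P Q (x m) (y m))) ∧
      ∀ u : Fin (N + 1) → L', u ≠ 0 → {m | ∀ i j, val P Q (x m) (y m) i * u j =
        val P Q (x m) (y m) j * u i}.Finite := by
  classical
  obtain ⟨L', i1, i2, g, x, y, hinj, hy0, hc, hx, hy⟩ := exists_orbit_nf a0 b0
  let _ : Algebra K L' := (g.comp (algebraMap K L)).toAlgebra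
  have h' : ECur (algebraMap K L') I I' (g a0) (g b0) (fun j => (P0 j).map g)
    (fun j => (Q0 j).map g) := h.map g
  set a := g a0
  set b := g b0
  set P : Fin (N + 1) → Polynomial L' := fun j => (P0 j).map g
  set Q : Fin (N + 1) → Polynomial L' := fun j => (Q0 j).map g
  obtain ⟨hns, hz, ⟨G', hG', hGh, hne⟩, hnc⟩ := h'
  -- conditions which hold for almost all points
  have e1 : {m | val P Q (x m) (y m) = 0}.Finite := by
    obtain ⟨j, hj⟩ : ∃ j, ¬ (P j = 0 ∧ Q j = 0) := by
      by_contra hcon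
      push Not at hcon
      obtain ⟨i, j, m, n, hij⟩ := hnc
      apply hij
      have h2 : ∀ (j : Fin (N + 1)) (m : Bool × ℕ), (cond m.1 (P j) (Q j)).coeff m.2 = 0 := by
        rintro j ⟨m, t⟩
        cases m
        · simp [(hcon j).2]
        · simp [(hcon j).1]
      rw [h2 i m, h2 j m, zero_mul, zero_mul]
    exact (finite_zeros hinj hc hj).subset fun m hm => congrFun hm j
  have e2 : {m | Zero (algebraMap K L') I' (val P Q (x m) (y m))}.Finite := by
    obtain ⟨α, β, h1⟩ := onC_degree (algebraMap K L') a b P Q G'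
    have h0 : ¬ (α = 0 ∧ β = 0) := by
      rintro ⟨rfl, rfl⟩
      apply hne
      rw [h1]
      simp
    refine (finite_zeros hinj hc h0).subset fun m hm => ?_
    have h2 := hm G' hG' hGh
    rwa [val_eval₂ h1 (hc m)] at h2
  obtain ⟨m0, hm0⟩ : ∃ m0, ∀ m, m0 ≤ m → val P Q (x m) (y m) ≠ 0 ∧
      ¬ Zero (algebraMap K L') I' (val P Q (x m) (y m)) := by
    obtain ⟨M, hM⟩ := (e1.union e2).bddAbove
    refine ⟨M + 1, fun m hm => ⟨fun h0 => ?_, fun h0 => ?_⟩⟩
    · have := hM (Or.inl h0 : m ∈ _)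
      omega
    · have := hM (Or.inr h0 : m ∈ _)
      omega
  refine ⟨L', i1, i2, inferInstance, a, b, P, Q, fun m => x (m + m0), fun m => y (m + m0), hns,
    fun m n hmn => ?_, fun m => hy0 _, fun m => hc _, fun m => ?_, fun m => ?_,
    fun m => (hm0 _ (by omega)).1, fun m => ?_, fun m => (hm0 _ (by omega)).2, fun u hu => ?_⟩
  · have := hinj hmn
    omega
  · have e : m + 1 + m0 = m + m0 + 1 := by omega
    simp only [e]
    exact hx _
  · have e : m + 1 + m0 = m + m0 + 1 := by omega
    simp only [e]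
    exact hy _
  · intro G hG hGf
    rw [val_eval₂ (α := 0) (β := 0) (by rw [hz G hG hGf]; simp) (hc _)]
    simp
  · obtain ⟨l, hl⟩ := Function.ne_iff.1 hu
    have hl' : u l ≠ 0 := hl
    obtain ⟨j, hj⟩ : ∃ j, ¬ (Polynomial.C (u l) * P j - Polynomial.C (u j) * P l = 0 ∧
        Polynomial.C (u l) * Q j - Polynomial.C (u j) * Q l = 0) := by
      by_contra hcon
      push Not at hcon
      exact not_NCt_of hl' (fun j => ⟨sub_eq_zero.1 (hcon j).1, sub_eq_zero.1 (hcon j).2⟩) hnc
    have h3 : ((fun m => m + m0) ⁻¹' {m | (Polynomial.C (u l) * P j -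
        Polynomial.C (u j) * P l).eval (x m) + (Polynomial.C (u l) * Q j -
          Polynomial.C (u j) * Q l).eval (x m) * y m = 0}).Finite :=
      (finite_zeros hinj hc hj).preimage (add_left_injective m0).injOn
    refine h3.subset fun m hm => ?_
    have h4 := hm j l
    simp only [val] at h4
    simp only [Set.mem_preimage, Set.mem_ofPred_eq, Polynomial.eval_sub, Polynomial.eval_mul,
      Polynomial.eval_C]
    linear_combination h4

end Pool.Agent.T2H23.EL
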