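import Mathlib

/-!
Definitions for the equivalence of hyperbolicity and finiteness of rational points on the level of
elliptic curves.
-/

set_option autoImplicit false

namespace Pool.Agent.T2H23.EL

open MvPolynomial Filter
open scoped LinearAlgebra.Projectivization

variable {N : ℕ}

/-! ### Projective varieties and their points -/

/-- The vector `v` is a zero of all forms (homogeneous polynomials) in the ideal `I`. -/
def Zero {K A : Type} [CommRing K] [CommRing A] (φ : K →+* A)
    (I : Ideal (MvPolynomial (Fin (N + 1)) K)) (v : Fin (N + 1) → A) : Prop :=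
  ∀ G ∈ I, (∃ d, G.IsHomogeneous d) → eval₂ φ v G = 0

/-- The points with coordinates in the field `A` of the projective variety given by the forms
in `I`. -/
def Pts {K A : Type} [CommRing K] [Field A] (φ : K →+* A)
    (I : Ideal (MvPolynomial (Fin (N + 1)) K)) : Set (ℙ A (Fin (N + 1) → A)) :=
  {p | Zero φ I p.rep}

/-- The vector `v` is a vector of homogeneous coordinates of the point `p`. -/
def Rep {A : Type} [Field A] (p : ℙ A (Fin (N + 1) → A)) (v : Fin (N + 1) → A) : Prop :=
  ∃ h : v ≠ 0, p = Projectivization.mk A v h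

/-! ### Entire curves -/

/-- `f` is a holomorphic map from the plane to the projective space of dimension `N`. -/
def Hol (f : ℂ → ℙ ℂ (Fin (N + 1) → ℂ)) : Prop :=
  ∀ a, ∃ g : Fin (N + 1) → ℂ → ℂ, (∀ j, AnalyticAt ℂ (g j) a) ∧
    ∀ᶠ z in nhds a, Rep (f z) fun j => g j z

section

variable {K : Type} [Field K]

/-- `f` is a nonconstant holomorphic map from the plane to the complex variety of `I` (where the
coefficients are embedded by `σ`), whose image is not contained in the complex variety of `I'`. -/
structure EntireCurve (σ : K →+* ℂ) (I I' : Ideal (MvPolynomial (Fin (N + 1)) K))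
    (f : ℂ → ℙ ℂ (Fin (N + 1) → ℂ)) : Prop where
  hol : Hol f
  mem : ∀ z, f z ∈ Pts σ I
  nonconst : ∃ z w, f z ≠ f w
  out : ∃ z, f z ∉ Pts σ I'

/-- All nonconstant entire curves in `X` lie in `Z`. Here `X` and `Z` are the complex projective
varieties given by the forms in `I` and in `I'`. For `I' = ⊤` the variety `Z` is empty, and this is
the hyperbolicity of `X`. -/
def Hyperbolic (σ : K →+* ℂ) (I I' : Ideal (MvPolynomial (Fin (N + 1)) K)) : Prop :=
  ∀ f, ¬ EntireCurve σ I I' f

/-- The restriction to the entire curves which factor through a complex torus of dimension one. -/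
def TorusHyperbolic (σ : K →+* ℂ) (I I' : Ideal (MvPolynomial (Fin (N + 1)) K)) : Prop :=
  ∀ f, (∃ ω₁ ω₂ : ℂ, LinearIndependent ℝ ![ω₁, ω₂] ∧ (∀ z, f (z + ω₁) = f z) ∧
    ∀ z, f (z + ω₂) = f z) → ¬ EntireCurve σ I I' f

/-- A ring of meromorphic functions on the plane, closed under differentiation, of transcendence
degree at most one over the constants; for example the polynomials, the ring of `exp z`, the
elliptic functions with given periods. -/
structure DiffRing (B : Subalgebra ℂ (ℂ → ℂ)) : Prop where
  mero : ∀ b ∈ B, Meromorphic b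
  der : ∀ b ∈ B, deriv b ∈ B
  dep : ∀ b ∈ B, ∀ c ∈ B, ∃ P : MvPolynomial (Fin 2) ℂ, P ≠ 0 ∧
    ∀ᶠ z in codiscrete ℂ, eval ![b z, c z] P = 0

/-- The smallest set of meromorphic functions on the plane which contains the quotients of the
functions in the ring `B` and is closed under sums, products and meromorphic solutions of linear
systems `y' = A y` with coefficients in the set. -/
inductive Iterated (B : Subalgebra ℂ (ℂ → ℂ)) : (ℂ → ℂ) → Prop
  | quot {b c : ℂ → ℂ} : b ∈ B → c ∈ B → Iterated B fun z => b z / c z
  | add {f g : ℂ → ℂ} : Iterated B f → Iterated B g → Iterated B fun z => f z + g z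
  | mul {f g : ℂ → ℂ} : Iterated B f → Iterated B g → Iterated B fun z => f z * g z
  | ode {n : ℕ} (A : Fin n → Fin n → ℂ → ℂ) (y : Fin n → ℂ → ℂ) :
      (∀ i j, Iterated B (A i j)) → (∀ i, Meromorphic (y i)) →
      (∀ᶠ z in codiscrete ℂ, ∀ i, HasDerivAt (y i) (∑ j, A i j z * y j z) z) →
        ∀ i, Iterated B (y i)

/-- The restriction to the entire curves with homogeneous coordinates given by iterated linear
differential equations over a differential ring of transcendence degree at most one. -/
def IteratedHyperbolic (σ : K →+* ℂ) (I I' : Ideal (MvPolynomial (Fin (N + 1)) K)) : Prop :=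
  ∀ f, (∃ B, DiffRing B ∧ ∃ h : Fin (N + 1) → ℂ → ℂ, (∀ j, Iterated B (h j)) ∧
    ∀ᶠ z in codiscrete ℂ, Rep (f z) fun j => h j z) → ¬ EntireCurve σ I I' f

/-- The functions in the finite set `U` are meromorphic, and the field generated by them (and by
the constants) is closed under the composition with `τ` and of transcendence degree at most one. -/
structure ShiftField (τ : ℂ → ℂ) (U : Set (ℂ → ℂ)) : Prop where
  fin : U.Finite
  mero : ∀ u ∈ U, Meromorphic u
  dep : ∀ a ∈ Algebra.adjoin ℂ U, ∀ b ∈ Algebra.adjoin ℂ U,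
    ∃ P : MvPolynomial (Fin 2) ℂ, P ≠ 0 ∧ ∀ᶠ z in codiscrete ℂ, eval ![a z, b z] P = 0
  shift : ∀ u ∈ U, ∃ p ∈ Algebra.adjoin ℂ U, ∃ q ∈ Algebra.adjoin ℂ U,
    (¬ ∀ᶠ z in codiscrete ℂ, q z = 0) ∧ ∀ᶠ z in codiscrete ℂ, q z * u (τ z) = p z

/-- The function `h` satisfies a nontrivial linear functional equation
`∑ a_k(z) h(τ^k(z)) = 0` whose coefficients are polynomials in the functions in `U`. -/
def FunctionalEq (τ : ℂ → ℂ) (U : Set (ℂ → ℂ)) (h : ℂ → ℂ) : Prop :=
  ∃ (m : ℕ) (a : ℕ → ℂ → ℂ), (∀ k, a k ∈ Algebra.adjoin ℂ U) ∧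
    (∃ k ≤ m, ¬ ∀ᶠ z in codiscrete ℂ, a k z = 0) ∧
    ∀ᶠ z in codiscrete ℂ, ∑ k ∈ Finset.range (m + 1), a k z * h (τ^[k] z) = 0

/-- `τ` is a nonconstant entire function, no iterate of which is the identity, and the entire curve
`f` has meromorphic homogeneous coordinates which satisfy linear functional equations with respect
to `τ` over a field of meromorphic functions of transcendence degree at most one. -/
def FunctionalCurve (τ : ℂ → ℂ) (f : ℂ → ℙ ℂ (Fin (N + 1) → ℂ)) : Prop :=
  Differentiable ℂ τ ∧ (∃ z w, τ z ≠ τ w) ∧ (∀ k, 0 < k → ∃ z, τ^[k] z ≠ z) ∧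
    ∃ U : Set (ℂ → ℂ), ShiftField τ U ∧ ∃ h : Fin (N + 1) → ℂ → ℂ, (∀ j, Meromorphic (h j)) ∧
      (∀ j, FunctionalEq τ U (h j)) ∧ ∀ᶠ z in codiscrete ℂ, Rep (f z) fun j => h j z

/-- For each nonconstant entire curve in `X` which does not lie in `Z`, the functions `τ` with
respect to which it satisfies such functional equations are translations by rational multiples of
one complex number. (In particular, there are no such equations with respect to functions `τ` which
are not translations, for example `τ(z) = q z`.) -/
def FunctionalHyperbolic (σ : K →+* ℂ) (I I' : Ideal (MvPolynomial (Fin (N + 1)) K)) : Prop :=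
  ∀ f, EntireCurve σ I I' f → ∃ b : ℂ, ∀ τ, FunctionalCurve τ f →
    ∃ r : ℚ, ∀ z, τ z = z + r * b

/-! ### Rational points -/

/-- The set `X(L)`, without the points of `Z`, is finite for all finite extensions `L` of `K`. -/
def Finiteness (I I' : Ideal (MvPolynomial (Fin (N + 1)) K)) : Prop :=
  ∀ (L : Type) [Field L] [NumberField L] [Algebra K L],
    (Pts (algebraMap K L) I \ Pts (algebraMap K L) I').Finite

/-- The value at the point `(x, y)` of the rational map to the projective space with homogeneous
coordinates `P_j(x) + Q_j(x) y`. Every rational map from the curve `y² = x³ + a x + b` to the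
projective space is of this form. -/
def val {A : Type} [CommRing A] (P Q : Fin (N + 1) → Polynomial A) (x y : A) : Fin (N + 1) → A :=
  fun j => (P j).eval x + (Q j).eval x * y

/-- The set of the points of the projective space which are values of this rational map at points
`(x, y)` of the curve `y² = x³ + a x + b` with coordinates in the field `A`. -/
def EllPts {A : Type} [Field A] (a b : A) (P Q : Fin (N + 1) → Polynomial A) :
    Set (ℙ A (Fin (N + 1) → A)) :=
  {c | ∃ x y : A, y ^ 2 = x ^ 3 + a * x + b ∧ Rep c (val P Q x y)}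

/-- Finiteness for the points of `X` which come from the points of an elliptic curve: For all finite
extensions `L` of `K`, all elliptic curves `E : y² = x³ + a x + b` over `L` and all rational maps `f`
from `E` to the projective space, defined over `L`, only finitely many of the points of `f(E(L))`
are points of `X` outside of `Z`. -/
def MordellWeilFinite (I I' : Ideal (MvPolynomial (Fin (N + 1)) K)) : Prop :=
  ∀ (L : Type) [Field L] [NumberField L] [Algebra K L] (a b : L), 4 * a ^ 3 + 27 * b ^ 2 ≠ 0 →
    ∀ P Q : Fin (N + 1) → Polynomial L,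
      (EllPts a b P Q ∩ (Pts (algebraMap K L) I \ Pts (algebraMap K L) I')).Finite

/-- The uniform version: there is a bound for the number of these points which is linear in the
degree of the rational map, and does not depend on the number field and the elliptic curve. -/
def UniformFinite (I I' : Ideal (MvPolynomial (Fin (N + 1)) K)) : Prop :=
  ∃ C : ℕ, ∀ (L : Type) [Field L] [NumberField L] [Algebra K L] (a b : L),
    4 * a ^ 3 + 27 * b ^ 2 ≠ 0 → ∀ (D : ℕ) (P Q : Fin (N + 1) → Polynomial L),
      (∀ j, (P j).natDegree ≤ D ∧ (Q j).natDegree ≤ D) →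
      (EllPts a b P Q ∩ (Pts (algebraMap K L) I \ Pts (algebraMap K L) I')).encard ≤
        (C * (D + 1) : ℕ)

/-- The curve `y² = x³ + a x + b`. -/
def cubic {A : Type} [CommRing A] (a b : A) : WeierstrassCurve.Affine A := ⟨0, 0, 0, a, b⟩

/-- Finiteness for the sequences of points of `X` outside of `Z` of the form `f(2 ^ m • p)`, where
`p` is a point of an elliptic curve `E` over a finite extension `L` of `K` and `f` is a rational map
from `E` to the projective space, defined over `L`. -/
def DoublingFinite (I I' : Ideal (MvPolynomial (Fin (N + 1)) K)) : Prop :=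
  ∀ (L : Type) [Field L] [NumberField L] [Algebra K L] [DecidableEq L] (a b : L),
    4 * a ^ 3 + 27 * b ^ 2 ≠ 0 → ∀ (P Q : Fin (N + 1) → Polynomial L)
      (p : (cubic a b).Point)
      (c : ℕ → ℙ L (Fin (N + 1) → L)),
      (∀ m, ∃ x y h, 2 ^ m • p = WeierstrassCurve.Affine.Point.some x y h ∧
        Rep (c m) (val P Q x y)) →
      (∀ m, c m ∈ Pts (algebraMap K L) I \ Pts (algebraMap K L) I') → (Set.range c).Finite

/-! ### Sequences of points given by linear recurrences -/

/-- A ring of sequences of complex numbers, closed under the shift, in which every element is zero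
from some index on or nonzero from some index on, and closed under inversion. -/
structure SeqField (B : Subalgebra ℂ (ℕ → ℂ)) : Prop where
  shift : ∀ b ∈ B, (fun m => b (m + 1)) ∈ B
  dich : ∀ b ∈ B, (∀ᶠ m in atTop, b m = 0) ∨ ∀ᶠ m in atTop, b m ≠ 0
  inv : ∀ b ∈ B, (fun m => (b m)⁻¹) ∈ B

/-- Each element of `B` is, from some index on, a quotient of two elements of the ring generated
by `S`. -/
def GenBy (S : Set (ℕ → ℂ)) (B : Subalgebra ℂ (ℕ → ℂ)) : Prop :=
  ∀ b ∈ B, ∃ p ∈ Algebra.adjoin ℂ S, ∃ q ∈ Algebra.adjoin ℂ S, (∀ᶠ m in atTop, q m ≠ 0) ∧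
    ∀ᶠ m in atTop, b m * q m = p m

/-- The sequence `f` satisfies a nontrivial linear recurrence `∑ a_k(m) f(m + k) = 0` (from some
index on) with coefficients in `B`. -/
def LinRec (B : Subalgebra ℂ (ℕ → ℂ)) (f : ℕ → ℂ) : Prop :=
  ∃ (r : ℕ) (a : ℕ → ℕ → ℂ), (∀ k, a k ∈ B) ∧ (∃ k ≤ r, ¬ ∀ᶠ m in atTop, a k m = 0) ∧
    ∀ᶠ m in atTop, ∑ k ∈ Finset.range (r + 1), a k m * f (m + k) = 0

/-- The towers of fields of sequences: one starts with a finitely generated field of sequences of
transcendence degree at most one (`base`); in each step (`step`) one goes from the field `B` to a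
field which is generated by `B` and finitely many sequences satisfying linear recurrences with
coefficients in `B`. -/
inductive SeqTower : Subalgebra ℂ (ℕ → ℂ) → Prop
  | base {B : Subalgebra ℂ (ℕ → ℂ)} : SeqField B →
      (∃ U : Set (ℕ → ℂ), U.Finite ∧ U ⊆ B ∧ GenBy U B) →
      (∀ b ∈ B, ∀ c ∈ B, ∃ P : MvPolynomial (Fin 2) ℂ, P ≠ 0 ∧
        ∀ᶠ m in atTop, eval ![b m, c m] P = 0) → SeqTower B
  | step {B B' : Subalgebra ℂ (ℕ → ℂ)} : SeqTower B → SeqField B' → B ≤ B' →
      (∃ U : Set (ℕ → ℂ), U.Finite ∧ (∀ u ∈ U, LinRec B u) ∧ U ⊆ B' ∧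
        GenBy ((B : Set (ℕ → ℂ)) ∪ U) B') → SeqTower B'

/-- For all finite extensions `L` of `K`, embedded in `ℂ`, and all fields of sequences `B` as above,
all sequences of points of `X(L)` outside of `Z`, with homogeneous coordinates satisfying linear
recurrences over `B`, are eventually periodic. -/
def TowerPeriodic (I I' : Ideal (MvPolynomial (Fin (N + 1)) K)) : Prop :=
  ∀ (L : Type) [Field L] [NumberField L] [Algebra K L] (e : L →+* ℂ) (B : Subalgebra ℂ (ℕ → ℂ)),
    SeqTower B → ∀ (c : ℕ → ℙ L (Fin (N + 1) → L)) (x : ℕ → Fin (N + 1) → L),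
      (∀ m, Rep (c m) (x m)) → (∀ j, LinRec B fun m => e (x m j)) →
      (∀ m, c m ∈ Pts (algebraMap K L) I \ Pts (algebraMap K L) I') →
      ∃ k m0 : ℕ, 0 < k ∧ ∀ m, m0 ≤ m → c (m + k) = c m

/-! ### Curves of genus at most one -/

/-- There is no nonconstant map, defined over the field `A`, from the projective line to `X` whose
image is not contained in `Z`. -/
def NoLine {A : Type} [Field A] (φ : K →+* A) (I I' : Ideal (MvPolynomial (Fin (N + 1)) K)) :
    Prop :=
  ∀ p : Fin (N + 1) → Polynomial A,
    (∀ G ∈ I, (∃ d, G.IsHomogeneous d) → eval₂ (Polynomial.C.comp φ) p G = 0) →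
    (∃ j k i i', (p j).coeff i * (p k).coeff i' ≠ (p k).coeff i * (p j).coeff i') →
    ∀ G ∈ I', (∃ d, G.IsHomogeneous d) → eval₂ (Polynomial.C.comp φ) p G = 0

/-- The form `G` at the coordinates `P_j(x) + Q_j(x) y`, as a function on the curve
`y² = x³ + a x + b`: the remainder modulo the equation of the curve, a polynomial in `y` over the
polynomials in `x`. -/
noncomputable def onCurve {A : Type} [CommRing A] (φ : K →+* A) (a b : A)
    (P Q : Fin (N + 1) → Polynomial A) (G : MvPolynomial (Fin (N + 1)) K) :
    Polynomial (Polynomial A) :=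
  eval₂ (Polynomial.C.comp (Polynomial.C.comp φ))
    (fun j => Polynomial.C (P j) + Polynomial.C (Q j) * Polynomial.X) G %ₘ
      (Polynomial.X ^ 2 - Polynomial.C (Polynomial.X ^ 3 + Polynomial.C a * Polynomial.X +
        Polynomial.C b))

/-- There is no nonconstant map, defined over the field `A`, from an elliptic curve to `X` whose
image is not contained in `Z`. (The map with the coordinates `P_j(x) + Q_j(x) y` is constant if all
`2 × 2` minors of the matrix of the coefficients are zero.) -/
def NoEll {A : Type} [Field A] (φ : K →+* A) (I I' : Ideal (MvPolynomial (Fin (N + 1)) K)) :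
    Prop :=
  ∀ (a b : A) (P Q : Fin (N + 1) → Polynomial A), 4 * a ^ 3 + 27 * b ^ 2 ≠ 0 →
    (∀ G ∈ I, (∃ d, G.IsHomogeneous d) → onCurve φ a b P Q G = 0) →
    (∃ (j k : Fin (N + 1)) (m n : Bool × ℕ),
      (cond m.1 (P j) (Q j)).coeff m.2 * (cond n.1 (P k) (Q k)).coeff n.2 ≠
        (cond m.1 (P k) (Q k)).coeff m.2 * (cond n.1 (P j) (Q j)).coeff n.2) →
    ∀ G ∈ I', (∃ d, G.IsHomogeneous d) → onCurve φ a b P Q G = 0

/-- All curves of genus at most one in `X` which are defined over number fields lie in `Z`: for all
finite extensions `L` of `K` there is no nonconstant map, defined over `L`, from the projective line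
or from an elliptic curve to `X` whose image is not contained in `Z`. -/
def NoGenusOne (I I' : Ideal (MvPolynomial (Fin (N + 1)) K)) : Prop :=
  ∀ (L : Type) [Field L] [NumberField L] [Algebra K L],
    NoLine (algebraMap K L) I I' ∧ NoEll (algebraMap K L) I I'

end

end Pool.Agent.T2H23.EL
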