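import Pool.Agent.T2H23.EL.Dbl

/-!
Infinite orbits of the duplication over number fields.
-/

set_option autoImplicit false

namespace Pool.Agent.T2H23.EL

open IsDedekindDomain NumberField

/-- there is a maximal ideal above 2 -/
theorem exists_two (L : Type) [Field L] [NumberField L] :
    ∃ v : HeightOneSpectrum (𝓞 L), (2 : 𝓞 L) ∈ v.asIdeal := by
  have hunit : ¬ IsUnit (2 : 𝓞 L) := by
    intro h
    obtain ⟨u, hu⟩ := h.exists_right_inv
    have h1 : (2 : L) * (u : L) = 1 := by
      have := congrArg (algebraMap (𝓞 L) L) hu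
      rw [map_mul, map_one, map_ofNat] at this
      exact this
    have h2 : (u : L) = algebraMap ℚ L (1 / 2) := by
      rw [map_div₀, map_one, map_ofNat, eq_div_iff two_ne_zero, mul_comm]
      exact h1
    have h3 : IsIntegral ℤ (u : L) := RingOfIntegers.isIntegral_coe u
    rw [h2, isIntegral_algebraMap_iff (algebraMap ℚ L).injective,
      IsIntegrallyClosed.isIntegral_iff] at h3
    obtain ⟨n, hn⟩ := h3
    have h4 : ((2 * n : ℤ) : ℚ) = (1 : ℤ) := by
      push_cast
      have h5 : (n : ℚ) = 1 / 2 := hn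
      rw [h5]
      norm_num
    have h5 : 2 * n = 1 := by exact_mod_cast h4
    omega
  obtain ⟨M, hM, h2⟩ := exists_max_ideal_of_mem_nonunits hunit
  refine ⟨⟨M, hM.isPrime, ?_⟩, h2⟩
  rintro rfl
  have h3 : (2 : 𝓞 L) = 0 := h2
  exact two_ne_zero h3

/-- a square root in a finite extension -/
theorem exists_sqrt (L : Type) [Field L] [NumberField L] (c : L) :
    ∃ (L' : Type) (_ : Field L') (_ : NumberField L') (g : L →+* L') (y : L'), y ^ 2 = g c := by
  let p : Polynomial L := Polynomial.X ^ 2 - Polynomial.C c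
  have hdeg : p.degree ≠ 0 := by
    have : p.degree = 2 := Polynomial.degree_X_pow_sub_C (by norm_num) c
    rw [this]
    norm_num
  have hsp := Polynomial.SplittingField.splits p
  obtain ⟨y, hy⟩ := hsp.exists_eval_eq_zero (by
    rw [Polynomial.degree_map]
    exact hdeg)
  have hfd : FiniteDimensional L p.SplittingField := inferInstance
  have hch : CharZero p.SplittingField :=
    charZero_of_injective_algebraMap (algebraMap L p.SplittingField).injective
  have hfin : FiniteDimensional ℚ p.SplittingField := FiniteDimensional.trans ℚ L _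
  refine ⟨p.SplittingField, inferInstance, ⟨⟩, algebraMap L p.SplittingField, y, ?_⟩
  rw [Polynomial.eval_map] at hy
  simp only [p, Polynomial.eval₂_sub, Polynomial.eval₂_X_pow, Polynomial.eval₂_C] at hy
  exact sub_eq_zero.1 hy

/-- common denominators -/
theorem exists_den (L : Type) [Field L] [NumberField L] (a : L) :
    ∃ d : ℤ, d ≠ 0 ∧ IsIntegral ℤ ((d : L) * a) := by
  have h1 : IsAlgebraic ℤ a := (IsFractionRing.isAlgebraic_iff ℤ ℚ L).2
    (Algebra.IsAlgebraic.isAlgebraic a)
  obtain ⟨y, hy, h⟩ := h1.exists_integral_multiple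
  refine ⟨y, hy, ?_⟩
  rwa [zsmul_eq_mul] at h

/-- **Infinite orbits of the duplication.** -/
theorem exists_orbit_nf {L : Type} [Field L] [NumberField L] (a b : L) :
    ∃ (L' : Type) (_ : Field L') (_ : NumberField L') (g : L →+* L') (x y : ℕ → L'),
      Function.Injective x ∧ (∀ m, y m ≠ 0) ∧
      (∀ m, y m ^ 2 = x m ^ 3 + g a * x m + g b) ∧
      (∀ m, x (m + 1) = dX (g a) (g b) (x m) (y m)) ∧
      ∀ m, y (m + 1) = dY (g a) (g b) (x m) (y m) := by
  obtain ⟨d1, hd1, ha⟩ := exists_den L a
  obtain ⟨d2, hd2, hb⟩ := exists_den L b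
  set d : ℤ := d1 * d2 with hd
  have hd0 : d ≠ 0 := mul_ne_zero hd1 hd2
  let x0 : L := 1 / (2 * d)
  obtain ⟨L', i1, i2, g, y0, hy0⟩ := exists_sqrt L (x0 ^ 3 + a * x0 + b)
  obtain ⟨w, hw⟩ := exists_two L'
  refine ⟨L', i1, i2, g, ?_⟩
  have hint : ∀ z : L', IsIntegral ℤ z → w.valuation L' z ≤ 1 := by
    intro z hz
    exact w.valuation_le_one (K := L') ⟨z, hz⟩
  have h2 : w.valuation L' 2 < 1 := by
    have h1 : w.valuation L' (algebraMap (𝓞 L') L' 2) < 1 :=
      (w.valuation_lt_one_iff_mem (K := L') 2).2 hw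
    rwa [map_ofNat] at h1
  have h20 : 0 < w.valuation L' 2 := (Valuation.pos_iff _).2 two_ne_zero
  have hdL : ((d : ℤ) : L') ≠ 0 := by exact_mod_cast hd0
  have hvd : w.valuation L' (d : L') ≤ 1 := hint _ (isIntegral_algebraMap (x := d))
  have hvd0 : 0 < w.valuation L' (d : L') := (Valuation.pos_iff _).2 hdL
  have hgx : g x0 = 1 / (2 * d) := by
    simp only [x0, map_div₀, map_one, map_mul, map_ofNat, map_intCast]
  have hlt : w.valuation L' 2 * w.valuation L' (d : L') < w.valuation L' (d : L') := by
    have := mul_lt_mul_of_pos_right h2 hvd0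
    rwa [one_mul] at this
  have hbig : ∀ z : L', w.valuation L' ((d : L') * z) ≤ 1 →
      w.valuation L' z < w.valuation L' (g x0) := by
    intro z hz
    rw [hgx, map_div₀, map_one, map_mul, lt_div_iff₀ (mul_pos h20 hvd0)]
    rw [map_mul] at hz
    by_cases hz0 : w.valuation L' z = 0
    · rw [hz0, zero_mul]
      exact zero_lt_one
    · have hz1 : 0 < w.valuation L' z := zero_lt_iff.2 hz0
      calc w.valuation L' z * (w.valuation L' 2 * w.valuation L' (d : L'))
          < w.valuation L' z * w.valuation L' (d : L') := mul_lt_mul_of_pos_left hlt hz1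
        _ ≤ 1 := by rwa [mul_comm]
  have h1x : 1 < w.valuation L' (g x0) := by
    have := hbig 1 (by rwa [mul_one])
    rwa [map_one] at this
  have hax : w.valuation L' (g a) < w.valuation L' (g x0) := by
    apply hbig
    have e : (d : L') * g a = d2 * g ((d1 : L) * a) := by
      rw [map_mul, map_intCast, hd]
      push_cast
      ring
    rw [e]
    exact hint _ ((isIntegral_algebraMap (x := d2)).mul (ha.map (g.toIntAlgHom)))
  have hbx : w.valuation L' (g b) < w.valuation L' (g x0) := by
    apply hbig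
    have e : (d : L') * g b = d1 * g ((d2 : L) * b) := by
      rw [map_mul, map_intCast, hd]
      push_cast
      ring
    rw [e]
    exact hint _ ((isIntegral_algebraMap (x := d1)).mul (hb.map (g.toIntAlgHom)))
  have hcur : y0 ^ 2 = (g x0) ^ 3 + g a * g x0 + g b := by
    rw [hy0]
    simp only [map_add, map_mul, map_pow]
  exact exists_orbit_v h2 h1x hax hbx hcur

end Pool.Agent.T2H23.EL
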